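import Pool.Agent.H92.EQ.TK

/-!
Board MP_75a732_an, block K, version for currents supported in compact sets of a family `𝒦`
stable by preimages (for instance the compact sets which meet no totally invariant proper
algebraic set).  `𝒦 = {univ}` gives the versions of `TK`.
-/

namespace Pool.Agent.H92.EQ

open scoped BigOperators ComplexConjugate ContDiff ComplexOrder
open MeasureTheory

noncomputable section

section defs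

variable {N : ℕ}

/-- `S` vanishes outside `K`. -/
def InK {p : ℕ} (K : Set (Fin N → ℂ)) (S : Form (Fin N) p) : Prop :=
  ∀ z, z ≠ 0 → z ∉ K → ∀ I J, S z I J = 0

/-- The family `𝒦` is stable by preimages. -/
def StK (F : Fin N → MvPolynomial (Fin N) ℂ) (𝒦 : Set (Set (Fin N → ℂ))) : Prop :=
  ∀ K ∈ 𝒦, ev F ⁻¹' K ∈ 𝒦

/-- Near critical visits at level `i` for points of `K`. -/
def Hit2 (F : Fin N → MvPolynomial (Fin N) ℂ) (d : ℕ) (K : Set (Fin N → ℂ)) (i : ℕ)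
    (r h : ℝ) : Prop :=
  ∀ p, p + 1 = N → ∀ σ : Form (Fin N) p, ProjForm σ → InK K σ →
    mass 0 σ = mass 0 (om N p) →
    pair (Set.indicator (Cr F d r) (fun _ => 1)) (Sn F d i σ) (fun _ : Fin 0 => ell) ≤
      h * mass 0 (om N p)

/-- The conclusion of the theorem in codimension `p`, on `K`. -/
def ConvK (F : Fin N → MvPolynomial (Fin N) ℂ) (d p : ℕ) (K : Set (Fin N → ℂ)) : Prop :=
  ∀ q, p + q + 1 = N → ∀ (φ : (Fin N → ℂ) → ℝ) (u : Fin q → (Fin N → ℂ) → ℝ), Hom0 φ →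
    (∀ j, Pot (u j)) → ∀ ε : ℝ, 0 < ε → ∃ n0 : ℕ, ∀ n ≥ n0, ∀ S : Form (Fin N) p,
      ProjForm S → InK K S → mass q S = mass q (om N p) →
      |pair φ (Sn F d n S) u - pair φ (Sn F d n (om N p)) u| < ε

/-- `a`-values are almost constant near the identity, on `K`. -/
def CstK (F : Fin N → MvPolynomial (Fin N) ℂ) (d p : ℕ) (K : Set (Fin N → ℂ)) : Prop :=
  ∀ q, p + q + 1 = N → ∀ (φ : (Fin N → ℂ) → ℝ) (u : Fin q → (Fin N → ℂ) → ℝ), Hom0 φ →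
    (∀ z, z ≠ 0 → 0 ≤ φ z) → (∀ j, Pot (u j)) → ∀ η : ℝ, 0 < η → ∃ i1 : ℕ, ∀ δ : ℝ, 0 < δ →
    ∃ n0 : ℕ, i1 ≤ n0 ∧ ∀ n ≥ n0, ∀ S : Form (Fin N) p, ProjForm S → InK K S →
      mass q S = mass q (om N p) → ∀ A : Matrix (Fin N) (Fin N) ℂ,
      (∀ i j, ‖A i j - (1 : Matrix (Fin N) (Fin N) ℂ) i j‖ ≤ Real.exp (-(δ * (d : ℝ) ^ n))) →
      |am φ (iter F (n - i1)) (Sn F d i1 S) u A -
        (d : ℝ) ^ (p * (n - i1)) * pair φ (Sn F d n S) u| ≤ η * (d : ℝ) ^ (p * (n - i1))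

/-- BLOCK P for the set `K`. -/
def PMainK (N d : ℕ) (F : Fin N → MvPolynomial (Fin N) ℂ) (K : Set (Fin N → ℂ)) : Prop :=
  ∀ η : ℝ, 0 < η → ∃ i1 n0 : ℕ, ∀ n ≥ n0, ∃ h : ℕ → ℝ, (∀ i, 0 ≤ h i) ∧
    ∑ i ∈ Finset.Icc i1 n, h i ≤ η ∧
    ∀ i ∈ Finset.Icc i1 n, Hit2 F d K i (Real.exp (-((d : ℝ) ^ n / (n : ℝ) ^ 4))) (h i)

/-- `K` is a closed cone which meets no totally invariant proper algebraic set. -/
def AwayInv (F : Fin N → MvPolynomial (Fin N) ℂ) (K : Set (Fin N → ℂ)) : Prop :=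
  IsClosed (K ∪ {0}) ∧ (∀ z ∈ K, ∀ l : ℂ, l ≠ 0 → l • z ∈ K) ∧
  ∀ A : Set (MvPolynomial (Fin N) ℂ), (∀ h ∈ A, ∃ m, h.IsHomogeneous m) → (∃ h ∈ A, h ≠ 0) →
    (∀ z : Fin N → ℂ, z ≠ 0 → ((∀ h ∈ A, MvPolynomial.eval (ev F z) h = 0) ↔
      ∀ h ∈ A, MvPolynomial.eval z h = 0)) →
    ∀ z ∈ K, z ≠ 0 → ¬ ∀ h ∈ A, MvPolynomial.eval z h = 0

end defs

/-- KF2 (as KF). -/
def T_KF2 : Prop :=
  ∀ (N d p q : ℕ) (F : Fin N → MvPolynomial (Fin N) ℂ) (K : Set (Fin N → ℂ)), 2 ≤ d →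
    p + q + 1 = N → IsH d F →
    ConvK F d p K → ∀ η : ℝ, 0 < η → ∃ m0 : ℕ, ∀ m ≥ m0, ∀ n ≥ m, ∀ j : ℕ,
    ∀ R R' : Form (Fin N) p, ProjForm R → ProjForm R' → InK K R → InK K R' →
    mass q R = mass q (om N p) → mass q R' = mass q (om N p) →
    |pair (fun z => Gn F d n z - ell z) (Sn F d m R)
        (fun k : Fin q => if (k : ℕ) < j then Gn F d n else ell) -
      pair (fun z => Gn F d n z - ell z) (Sn F d m R')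
        (fun k : Fin q => if (k : ℕ) < j then Gn F d n else ell)| ≤ η

/-- KG2: supports. -/
def T_KG2 : Prop :=
  ∀ (N d p i : ℕ) (F : Fin N → MvPolynomial (Fin N) ℂ) (K : Set (Fin N → ℂ))
    (S : Form (Fin N) p) (H : (Fin N → ℂ) → Matrix (Fin N) (Fin N) ℂ), 1 ≤ d → IsH d F →
    InK K S → InK K (fun z => wedge (S z) (H z)) ∧ InK (ev (iter F i) ⁻¹' K) (Sn F d i S) ∧
    (∀ 𝒦 : Set (Set (Fin N → ℂ)), StK F 𝒦 → K ∈ 𝒦 → ev (iter F i) ⁻¹' K ∈ 𝒦)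

/-- KI2 (as KI). -/
def T_KI2 : Prop :=
  ∀ (N d p q m i : ℕ) (F : Fin N → MvPolynomial (Fin N) ℂ) (K : Set (Fin N → ℂ))
    (S : Form (Fin N) p) (f : (Fin N → ℂ) → ℝ) (h r a b : ℝ), 2 ≤ d → p + q + 1 = N →
    IsH d F → ProjForm S → InK K S →
    mass q S = mass q (om N p) → Hom0 f → 0 ≤ h → 0 ≤ a → 0 ≤ b → Hit2 F d K i r h →
    (∀ z, z ≠ 0 → f z ≤ a + b) → (∀ z, z ≠ 0 → z ∉ Cr F d r → f z ≤ b) →
    pair (fun z => f (ev (iter F m) z)) (Sn F d (i + m) S) (fun _ : Fin q => Gn F d (i + m)) ≤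
      (a * h + b) * mass q (om N p)

/-- KEY1K (as KEY1). -/
def T_KEY1K : Prop :=
  ∀ (N d p q : ℕ) (F : Fin N → MvPolynomial (Fin N) ℂ), 2 ≤ d → p + q + 1 = N → IsH d F →
    ∃ C : ℝ, 0 < C ∧ ∀ (K : Set (Fin N → ℂ)) (n i : ℕ) (δ r h : ℝ) (S : Form (Fin N) p),
    i ≤ n → 0 < δ → 0 < r →
    r ≤ 1 → 0 ≤ h → Hit2 F d K i r h → ProjForm S → InK K S → mass q S = mass q (om N p) →
    beta F d n i q (Real.exp (-(δ * (d : ℝ) ^ n))) S ≤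
      (2 * h + C / (δ * (d : ℝ) ^ i) + (2 * Real.log (1 / r) + C) / (δ * (d : ℝ) ^ n)) *
        mass q (om N p)

/-- KEY2K (as KEY2). -/
def T_KEY2K : Prop :=
  ∀ (N d p q : ℕ) (F : Fin N → MvPolynomial (Fin N) ℂ) (𝒦 : Set (Set (Fin N → ℂ)))
    (K : Set (Fin N → ℂ)), 2 ≤ d → p + q + 1 = N → IsH d F → StK F 𝒦 → K ∈ 𝒦 →
    (∀ K ∈ 𝒦, ConvK F d (p + 1) K) →
    ∃ C : ℝ, 0 < C ∧ ∀ (i : ℕ) (δ η : ℝ), 0 < δ → 0 < η → ∃ n0 : ℕ, i ≤ n0 ∧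
    ∀ n ≥ n0, ∀ (r h : ℝ) (S : Form (Fin N) p), 0 < r → r ≤ 1 → 0 ≤ h → Hit2 F d K i r h →
    ProjForm S → InK K S → mass q S = mass q (om N p) →
    beta F d n i q (Real.exp (-(δ * (d : ℝ) ^ n))) S ≤
      (2 * h + η + (2 * Real.log (1 / r) + C) / (δ * (d : ℝ) ^ n)) * mass q (om N p)

/-- KS2 (as KS). -/
def T_KS2 : Prop :=
  ∀ (N d p q : ℕ) (F : Fin N → MvPolynomial (Fin N) ℂ) (𝒦 : Set (Set (Fin N → ℂ)))
    (K : Set (Fin N → ℂ)), 2 ≤ d → p + q + 1 = N → IsH d F → StK F 𝒦 → K ∈ 𝒦 →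
    (∀ K ∈ 𝒦, ConvK F d (p + 1) K) → PMainK N d F K → ∀ η : ℝ, 0 < η → ∃ i1 : ℕ,
    ∀ δ : ℝ, 0 < δ → ∃ n0 : ℕ, i1 ≤ n0 ∧ ∀ n ≥ n0, ∀ S : Form (Fin N) p, ProjForm S →
    InK K S → mass q S = mass q (om N p) →
    ∑ i ∈ Finset.Ioc i1 n, beta F d n i q (Real.exp (-(δ / (i : ℝ) ^ 2 * (d : ℝ) ^ n))) S ≤
      η * mass q (om N p)

/-- KN2 (as KN). -/
def T_KN2 : Prop :=
  ∀ (N d p : ℕ) (F : Fin N → MvPolynomial (Fin N) ℂ) (𝒦 : Set (Set (Fin N → ℂ)))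
    (K : Set (Fin N → ℂ)), 2 ≤ d → p < N → IsH d F → StK F 𝒦 → K ∈ 𝒦 →
    (∀ K ∈ 𝒦, ConvK F d (p + 1) K) → PMainK N d F K → (∀ q, LocLip N p q) → CstK F d p K

/-- KP2: convergence for the powers of the Fubini-Study form. -/
def T_KP2 : Prop :=
  ∀ (N d p q : ℕ) (F : Fin N → MvPolynomial (Fin N) ℂ) (φ : (Fin N → ℂ) → ℝ)
    (u : Fin q → (Fin N → ℂ) → ℝ), 2 ≤ d → p + q + 1 = N → IsH d F → Hom0 φ →
    (∀ j, Pot (u j)) → ∃ C : ℝ, ∀ l n, l ≤ n →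
    |pair φ (Sn F d n (om N p)) u - pair φ (Sn F d l (om N p)) u| ≤ C / (d : ℝ) ^ l

/-- KO2 (as KO, with KP2 for the comparison). -/
def T_KO2 : Prop :=
  ∀ (N d p : ℕ) (F : Fin N → MvPolynomial (Fin N) ℂ) (K : Set (Fin N → ℂ)), 2 ≤ d → p < N →
    IsH d F → CstK F d p K → (∀ q, TGauss N p q) → (∀ q, GaussMean N p q) → ConvK F d p K

/-- KZ2: the theorem, given the block `P`. -/
def T_KZ2 : Prop :=
  ∀ (N d p : ℕ) (F : Fin N → MvPolynomial (Fin N) ℂ) (𝒦 : Set (Set (Fin N → ℂ))), 2 ≤ d →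
    IsH d F → StK F 𝒦 → (∀ K ∈ 𝒦, PMainK N d F K) → ∀ K ∈ 𝒦, ConvK F d p K

/-- BLOCK P: the statement to be proved. -/
def T_PM2 : Prop :=
  ∀ (N d : ℕ) (F : Fin N → MvPolynomial (Fin N) ℂ) (K : Set (Fin N → ℂ)), 2 ≤ d → IsH d F →
    AwayInv F K → PMainK N d F K

end

end Pool.Agent.H92.EQ
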