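import Pool.Agent.H92.EQ.Away

/-!
The final form of the theorem.
-/

namespace Pool.Agent.H92.EQ

open scoped BigOperators ComplexConjugate ContDiff ComplexOrder
open MeasureTheory Filter Topology

theorem fin_form (hC : ∀ (N d p : ℕ) (F : Fin N → MvPolynomial (Fin N) ℂ)
      (K : Set (Fin N → ℂ)), 2 ≤ d → IsH d F → AwayInv F K → ConvK F d p K) (hKP : T_KP2)
    (N d p q : ℕ) (F : Fin N → MvPolynomial (Fin N) ℂ) (K : Set (Fin N → ℂ)) (hd : 2 ≤ d)
    (hpq : p + q + 1 = N) (hF : IsH d F) (hK : AwayInv F K)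
    (φ : (Fin N → ℂ) → ℝ) (u : Fin q → (Fin N → ℂ) → ℝ) (hφ : Hom0 φ) (hu : ∀ j, Pot (u j)) :
    ∃ L : ℝ, Tendsto (fun n => pair φ (Sn F d n (om N p)) u) atTop (𝓝 L) ∧
      ∀ ε : ℝ, 0 < ε → ∃ n0 : ℕ, ∀ n ≥ n0, ∀ S : Form (Fin N) p, ProjForm S → InK K S →
        mass q S = mass q (om N p) → |pair φ (Sn F d n S) u - L| < ε := by
  obtain ⟨C, hCC⟩ := hKP N d p q F φ u hd hpq hF hφ hu
  have hb : Tendsto (fun l : ℕ => 2 * (C / (d : ℝ) ^ l)) atTop (𝓝 0) := by
    have h1 : Tendsto (fun l : ℕ => ((1 : ℝ) / d) ^ l) atTop (𝓝 0) := by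
      apply tendsto_pow_atTop_nhds_zero_of_lt_one
      · positivity
      · rw [div_lt_one (by positivity)]
        exact_mod_cast (by omega : 1 < d)
    have h2 := h1.const_mul (2 * C)
    rw [mul_zero] at h2
    refine h2.congr fun l => ?_
    rw [one_div, inv_pow]
    ring
  have hcs : CauchySeq (fun n => pair φ (Sn F d n (om N p)) u) := by
    refine cauchySeq_of_le_tendsto_0 (fun l => 2 * (C / (d : ℝ) ^ l)) ?_ hb
    intro n m l hn hm
    rw [Real.dist_eq]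
    have h1 := hCC l n hn
    have h2 := hCC l m hm
    have := abs_sub_le (pair φ (Sn F d n (om N p)) u) (pair φ (Sn F d l (om N p)) u)
      (pair φ (Sn F d m (om N p)) u)
    rw [abs_sub_comm (pair φ (Sn F d l (om N p)) u)] at this
    linarith
  obtain ⟨L, hL⟩ := cauchySeq_tendsto_of_complete hcs
  refine ⟨L, hL, fun ε hε => ?_⟩
  obtain ⟨n1, h1⟩ := hC N d p F K hd hF hK q hpq φ u hφ hu (ε / 2) (by linarith)
  obtain ⟨n2, h2⟩ := (Metric.tendsto_atTop.1 hL) (ε / 2) (by linarith)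
  refine ⟨max n1 n2, fun n hn S hS hSK hm => ?_⟩
  have a1 := h1 n (le_trans (le_max_left _ _) hn) S hS hSK hm
  have a2 := h2 n (le_trans (le_max_right _ _) hn)
  rw [Real.dist_eq] at a2
  have := abs_sub_le (pair φ (Sn F d n S) u) (pair φ (Sn F d n (om N p)) u) L
  linarith

end Pool.Agent.H92.EQ
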