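import Pool.Agent.H92.EQ.AllF
import Pool.Agent.H92.EQ.Fin
import Pool.Agent.H14.EQ.PFV2
import Pool.Agent.H14.EQ.PZ
import Pool.Agent.H4.EQ.PRNc
import Pool.Agent.H57.EQ.PLI
import Pool.Agent.H57.EQ.PMK
import Pool.Agent.H61.EQ.PBD
import Pool.Agent.H68.EQ.PNM
import Pool.Agent.H68.EQ.PRJ
import Pool.Agent.H76.EQ.PVI
import Pool.Agent.H77.EQ.PDS
import Pool.Agent.H77.EQ.PLC
import Pool.Agent.H80.EQ.PRC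
import Pool.Agent.H86.EQP.PCH
import Pool.Agent.H95.EQ.PDE
import Pool.Agent.H95.EQ.PLL
import Pool.Agent.H95.EQ.PNJ
import Pool.Agent.H95.EQ.PSA

/-!
Assembly of the board eqd_modules (MP_75a732_an), block P and the theorem.
-/

namespace Pool.Agent.H92.EQ.All

open Pool.Agent.H92.EQ

theorem a_PVI : T_PVI := Pool.Agent.H76.EQ.pf_PVI 

theorem a_PBD : T_PBD := Pool.Agent.H61.EQ.pf_PBD a_KJ a_W1 a_W2 a_W3 a_W7 a_PVI a_L6 a_L1 a_L2 a_W6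

theorem a_PCH : T_PCH := Pool.Agent.H86.EQP.pf_PCH a_G3

theorem a_PDE : T_PDE := Pool.Agent.H95.EQ.pf_PDE a_W1 a_L2

theorem a_PDS : T_PDS := Pool.Agent.H77.EQ.pf_PDS a_PCH a_D12

theorem a_PRJ : T_PRJ := Pool.Agent.H68.EQ.pf_PRJ a_KL a_D11

theorem a_PLL : T_PLL := Pool.Agent.H95.EQ.pf_PLL 

theorem a_PLI : T_PLI := Pool.Agent.H57.EQ.pf_PLI a_PLL a_KA a_KE a_KH a_D7 a_L5 a_P1 a_P3 a_S5 a_L6 a_L3 a_L1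

theorem a_PFV : T_PFV := Pool.Agent.H14.EQ.pf_PFV a_PDE a_KJ a_PRJ a_PVI a_PBD a_PLI a_TN a_TH a_D5 a_D7 a_D12 a_L3 a_L5 a_L6 a_P1 a_P3 a_P5

theorem a_PLC : T_PLC := Pool.Agent.H77.EQ.pf_PLC a_W0 a_W2 a_S4 a_S5 a_A9 a_D10 a_W4 a_L2 a_D5 a_D11 a_L1 a_P3

theorem a_PMK : T_PMK := Pool.Agent.H57.EQ.pf_PMK a_G4 a_D12 a_P1 a_P3 a_P5

theorem a_PNM : T_PNM := Pool.Agent.H68.EQ.pf_PNM 

theorem a_PNJ : T_PNJ := Pool.Agent.H95.EQ.pf_PNJ a_PNM a_KB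

theorem a_PSA : T_PSA := Pool.Agent.H95.EQ.pf_PSA 

theorem a_PRC : T_PRC := Pool.Agent.H80.EQ.pf_PRC a_PNM a_PDS a_PMK a_PDE a_PVI a_PLC a_PSA a_D12 a_P1 a_P3 a_P5 a_L1 a_L6

theorem a_PRN : T_PRN := Pool.Agent.H4.EQ.pf_PRN a_PSA a_PMK a_PDE a_PVI a_D12 a_KG2 a_P1 a_L1

theorem a_PZ : T_PZ := Pool.Agent.H14.EQ.pf_PZ a_PNJ a_PFV a_PRC a_PRN a_PRJ a_PVI a_PMK a_P1 a_P3 a_D12

theorem conv_all : ∀ (N d p : ℕ) (F : Fin N → MvPolynomial (Fin N) ℂ)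
    (K : Set (Fin N → ℂ)), 2 ≤ d → IsH d F → AwayInv F K → ConvK F d p K :=
  fun _ d p F K hd hF h => conv_away a_D11 a_KZ2 a_PZ a_LE a_TZ a_IZ d p F K hd hF h

end Pool.Agent.H92.EQ.All
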