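import Pool.Agent.H1.EQ.A1
import Pool.Agent.H10.EQ.D7
import Pool.Agent.H10.EQ.W2
import Pool.Agent.H11.EQ.D1
import Pool.Agent.H11.EQ.D6
import Pool.Agent.H14.EQ.IG
import Pool.Agent.H14.EQ.IZ
import Pool.Agent.H14.EQ.K2
import Pool.Agent.H14.EQ.TI
import Pool.Agent.H14.EQ.TZ
import Pool.Agent.H17.EQD.G4
import Pool.Agent.H17.EQD.TN
import Pool.Agent.H17.EQD.W7
import Pool.Agent.H35.EQ.LE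
import Pool.Agent.H35.EQ.S6
import Pool.Agent.H36.EQ.KO
import Pool.Agent.H38.EQ.A13b
import Pool.Agent.H38.EQ.G1
import Pool.Agent.H38.EQ.L1
import Pool.Agent.H38.EQ.L4
import Pool.Agent.H38.EQ.P2
import Pool.Agent.H39.EQ.A12
import Pool.Agent.H39.EQ.A4
import Pool.Agent.H39.EQ.A6
import Pool.Agent.H39.EQ.TB
import Pool.Agent.H39.EQ.TF2
import Pool.Agent.H4.EQ.KO2
import Pool.Agent.H4.EQ.KS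
import Pool.Agent.H4.EQ.W3
import Pool.Agent.H40.EQ.LB
import Pool.Agent.H41.EQ.IA
import Pool.Agent.H41.EQ.IB
import Pool.Agent.H43.EQ.KJ
import Pool.Agent.H43.EQ.KN
import Pool.Agent.H43.EQ.KN2
import Pool.Agent.H46.EQ.A13
import Pool.Agent.H46.EQ.S23
import Pool.Agent.H47.EQ.TC2
import Pool.Agent.H47.EQ.TE
import Pool.Agent.H48.EQD.S1
import Pool.Agent.H50.EQ.DD4
import Pool.Agent.H50.EQ.DD5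
import Pool.Agent.H50.EQ.TCC
import Pool.Agent.H52.EQ.KA
import Pool.Agent.H52.EQ.KB
import Pool.Agent.H53.EQ.KS2
import Pool.Agent.H60.EQD.A11
import Pool.Agent.H60.EQD.A3
import Pool.Agent.H60.EQD.ID
import Pool.Agent.H60.EQD.KM
import Pool.Agent.H60.EQD.L6
import Pool.Agent.H62.EQ.KG2
import Pool.Agent.H62.EQ.KP2
import Pool.Agent.H68.EQ.D2
import Pool.Agent.H68.EQ.L5
import Pool.Agent.H68.EQ.P1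
import Pool.Agent.H68.EQ.S5
import Pool.Agent.H68.EQ.W0
import Pool.Agent.H69.EQ.A14
import Pool.Agent.H69.EQ.A15
import Pool.Agent.H69.EQ.S0
import Pool.Agent.H69.EQ.S4
import Pool.Agent.H69.EQ.TL
import Pool.Agent.H69.EQ.TM
import Pool.Agent.H72.EQ.KL
import Pool.Agent.H72.EQ.KZ
import Pool.Agent.H73.EQ.A16
import Pool.Agent.H73.EQ.D3
import Pool.Agent.H78.EQ.Wir
import Pool.Agent.H79.EQ.A2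
import Pool.Agent.H79.EQ.D9
import Pool.Agent.H79.EQ.P6
import Pool.Agent.H79.EQ.TA
import Pool.Agent.H80.EQ.IC
import Pool.Agent.H80.EQ.KF
import Pool.Agent.H80.EQ.KI
import Pool.Agent.H80.EQ.LC
import Pool.Agent.H80.EQ.P3
import Pool.Agent.H80.EQ.W9
import Pool.Agent.H84.EQ.A7
import Pool.Agent.H84.EQ.P7
import Pool.Agent.H84.EQ.TJ
import Pool.Agent.H84.EQ.TK
import Pool.Agent.H88.EQ.A89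
import Pool.Agent.H88.EQ.G2
import Pool.Agent.H88.EQ.G3
import Pool.Agent.H88.EQ.IE
import Pool.Agent.H88.EQ.KEY
import Pool.Agent.H88.EQ.KEYK
import Pool.Agent.H88.EQ.KH
import Pool.Agent.H88.EQ.LA
import Pool.Agent.H88.EQ.LD
import Pool.Agent.H89.EQ.A5
import Pool.Agent.H89.EQ.L2
import Pool.Agent.H89.EQ.P4
import Pool.Agent.H89.EQ.TD
import Pool.Agent.H94.EQ.D10
import Pool.Agent.H94.EQ.L3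
import Pool.Agent.H95.EQ.TG
import Pool.Agent.H95.EQ.TH
import Pool.Agent.H96.EQ.D11
import Pool.Agent.H96.EQ.D12
import Pool.Agent.H96.EQ.D13
import Pool.Agent.H96.EQ.D8

/-!
Assembly of the board eqd_modules (MP_75a732_an).
-/

namespace Pool.Agent.H92.EQ.All

open Pool.Agent.H92.EQ

theorem a_A1 : T_A1 := Pool.Agent.H1.EQ.pf_A1 

theorem a_A10 : T_A10 := Pool.Agent.H84.EQ.pf_A10 

theorem a_A11 : T_A11 := Pool.Agent.H60.EQD.pf_A11 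

theorem a_A6 : T_A6 := Pool.Agent.H39.EQ.pf_A6 

theorem a_A12 : T_A12 := Pool.Agent.H39.EQ.A12.pf_A12 a_A1 a_A6 a_A10

theorem a_A4 : T_A4 := Pool.Agent.H39.EQ.pf_A4 

theorem a_A13 : T_A13 := Pool.Agent.H46.EQ.pf_A13 a_A1 a_A4

theorem a_A13b : T_A13b := Pool.Agent.H38.EQ.pf_A13b a_A1 a_A4

theorem a_A14 : T_A14 := Pool.Agent.H69.EQ.pf_A14 

theorem a_A15 : T_A15 := Pool.Agent.H69.EQ.pf_A15 a_A1 a_A4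

theorem a_A7 : T_A7 := Pool.Agent.H84.EQ.pf_A7 

theorem a_A9 : T_A9 := Pool.Agent.H88.EQ.pf_A9 a_A6

theorem a_A2 : T_A2 := Pool.Agent.H79.EQ.pf_A2 

theorem a_A16 : T_A16 := Pool.Agent.H73.EQ.pf_A16 a_A1 a_A7 a_A9 a_A10 a_A2

theorem a_A3 : T_A3 := Pool.Agent.H60.EQD.pf_A3 

theorem a_A5 : T_A5 := Pool.Agent.H89.EQ.pf_A5 

theorem a_A8 : T_A8 := Pool.Agent.H88.EQ.pf_A8 a_A6

theorem a_W1 : T_W1 := Pool.Agent.H78.EQ.pf_W1 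

theorem a_W2 : T_W2 := Pool.Agent.H10.EQ.w2 a_W1

theorem a_W0 : T_W0 := Pool.Agent.H68.EQ.pf_W0 

theorem a_W3 : T_W3 := Pool.Agent.H4.EQ.w3 a_W0 a_W2

theorem a_D1 : T_D1 := Pool.Agent.H11.EQ.d1 a_W1 a_W2 a_W3

theorem a_D10 : T_D10 := Pool.Agent.H94.EQ.d10 a_A6

theorem a_D11 : T_D11 := Pool.Agent.H96.EQ.pf_D11 

theorem a_D2 : T_D2 := Pool.Agent.H68.EQ.pf_D2 

theorem a_D5 : T_D5 := Pool.Agent.H50.EQ.pf_D5 a_D1 a_D2 a_D11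

theorem a_D12 : T_D12 := Pool.Agent.H96.EQ.pf_D12 a_D5

theorem a_D13 : T_D13 := Pool.Agent.H96.EQ.pf_D13 

theorem a_W5 : T_W5 := Pool.Agent.H78.EQ.pf_W5 

theorem a_W6 : T_W6 := Pool.Agent.H78.EQ.pf_W6 

theorem a_D3 : T_D3 := Pool.Agent.H73.EQ.pf_D3 a_W1 a_W5 a_W6

theorem a_D4 : T_D4 := Pool.Agent.H50.EQ.pf_D4 

theorem a_W8 : T_W8 := Pool.Agent.H78.EQ.pf_W8 

theorem a_L2 : T_L2 := Pool.Agent.H89.EQ.pf_L2 a_W0 a_W1 a_W5 a_W6 a_W8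

theorem a_D6 : T_D6 := Pool.Agent.H11.EQ.d6 a_D3 a_D4 a_L2

theorem a_W7 : T_W7 := Pool.Agent.H17.EQD.pf_W7 

theorem a_W9 : T_W9 := Pool.Agent.H80.EQ.pf_W9 a_W7 a_W8

theorem a_S5 : T_S5 := Pool.Agent.H68.EQ.pf_S5 a_A5 a_L2 a_W6 a_W8

theorem a_P1 : T_P1 := Pool.Agent.H68.EQ.pf_P1 a_S5

theorem a_L1 : T_L1 := Pool.Agent.H38.EQ.pf_L1 

theorem a_W4 : T_W4 := Pool.Agent.H78.EQ.pf_W4 a_W2 a_W3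

theorem a_L3 : T_L3 := Pool.Agent.H94.EQ.l3 a_W2 a_W4 a_W9 a_D11

theorem a_P6 : T_P6 := Pool.Agent.H79.EQ.pf_P6 a_A3

theorem a_D7 : T_D7 := Pool.Agent.H10.EQ.d7 a_W9 a_A4 a_S5 a_P1 a_L1 a_L3 a_D6 a_P6

theorem a_D8 : T_D8 := Pool.Agent.H96.EQ.pf_D8 

theorem a_D9 : T_D9 := Pool.Agent.H79.EQ.pf_D9 a_W4

theorem a_G1 : T_G1 := Pool.Agent.H38.EQ.pf_G1 

theorem a_G2 : T_G2 := Pool.Agent.H88.EQ.pf_G2 a_G1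

theorem a_S4 : T_S4 := Pool.Agent.H69.EQ.pf_S4 

theorem a_S0 : T_S0 := Pool.Agent.H69.EQ.pf_S0 

theorem a_S1 : T_S1 := Pool.Agent.H48.EQD.s1 a_A2 a_A3 a_D3 a_W1 a_W5 a_W6

theorem a_S2 : T_S2 := Pool.Agent.H46.EQ.pf_S2 a_S0 a_S1 a_A1

theorem a_S3 : T_S3 := Pool.Agent.H46.EQ.pf_S3 a_S0 a_S1 a_S2 a_A1

theorem a_S6 : T_S6 := Pool.Agent.H35.EQ.s6 a_S3 a_S4 a_S5 a_A16 a_A1 a_A2 a_A7 a_W7 a_W9 a_L2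

theorem a_P2 : T_P2 := Pool.Agent.H38.EQ.pf_P2 a_A1 a_A2 a_W6

theorem a_P3 : T_P3 := Pool.Agent.H80.EQ.pf_P3 a_S6 a_A4 a_P1 a_P2 a_L1 a_L3

theorem a_G3 : T_G3 := Pool.Agent.H88.EQ.pf_G3 a_G2 a_S4 a_S5 a_P1 a_P3 a_W4 a_L1 a_L2 a_L3 a_A1 a_A9 a_D7 a_D10 a_D11

theorem a_G4 : T_G4 := Pool.Agent.H17.EQD.pf_G4 a_G3 a_S4 a_S5 a_A9 a_D10 a_W4 a_L2 a_D5 a_D11 a_L1

theorem a_IA : T_IA := Pool.Agent.H41.EQ.pf_IA 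

theorem a_IB : T_IB := Pool.Agent.H41.EQ.pf_IB a_D13

theorem a_TH : T_TH := Pool.Agent.H95.EQ.pf_TH 

theorem a_IC : T_IC := Pool.Agent.H80.EQ.pf_IC a_D5 a_D13 a_IA a_TH

theorem a_ID : T_ID := Pool.Agent.H60.EQD.pf_ID 

theorem a_IE : T_IE := Pool.Agent.H88.EQ.IErow.pf_IE a_D7 a_D9 a_W9

theorem a_IF : T_IF := Pool.Agent.H88.EQ.IErow.pf_IF a_IB a_IC a_ID a_IE a_D7

theorem a_IG : T_IG := Pool.Agent.H14.EQ.pf_IG a_W6 a_IA a_D8 a_D13 a_TH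

theorem a_P5 : T_P5 := Pool.Agent.H84.EQ.pf_P5 a_L1 a_L3 a_D5 a_D12 a_G4 a_P3

theorem a_TN : T_TN := Pool.Agent.H17.EQD.pf_TN a_D5 a_D8 a_D11 a_D13 a_P3 a_P5 a_L1

theorem a_IZ : T_IZ := Pool.Agent.H14.EQ.pf_IZ a_IF a_IG a_IA a_TH a_TN a_D7 a_D5 a_D13 a_A1 a_S5 a_L1 a_L3 a_P5

theorem a_L6 : T_L6 := Pool.Agent.H60.EQD.pf_L6 a_L2 a_W9 a_W8

theorem a_KA : T_KA := Pool.Agent.H52.EQ.pf_KA a_D12 a_L3 a_L6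

theorem a_L4 : T_L4 := Pool.Agent.H38.EQ.pf_L4 a_W9 a_W4 a_W6

theorem a_L5 : T_L5 := Pool.Agent.H68.EQ.pf_L5 a_L4

theorem a_KB : T_KB := Pool.Agent.H52.EQ.pf_KB a_G3 a_L5 a_L6

theorem a_KD : T_KD := Pool.Agent.H72.EQ.pf_KD a_P1 a_P2 a_S6 a_L1

theorem a_P7 : T_P7 := Pool.Agent.H84.EQ.pf_P7 a_L1 a_S6 a_P1 a_P2 a_P3

theorem a_KE : T_KE := Pool.Agent.H52.EQ.pf_KE a_P7

theorem a_KE2 : T_KE2 := Pool.Agent.H72.EQ.pf_KE2 a_KD a_P1 a_P2 a_L1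

theorem a_KH : T_KH := Pool.Agent.H88.EQ.KHrow.pf_KH a_P3 a_P5 a_P6 a_D6 a_D9 a_D12 a_L3

theorem a_KI : T_KI := Pool.Agent.H80.EQ.pf_KI a_G4 a_KA a_KH a_D12 a_P1 a_P3 a_P5 a_D7 a_L3 a_L6

theorem a_KEY1 : T_KEY1 := Pool.Agent.H88.EQ.KEYrow.pf_KEY1 a_KA a_KB a_KE a_KI a_P1 a_P3 a_P5 a_L1 a_L3 a_D12

theorem a_KG2 : T_KG2 := Pool.Agent.H62.EQ.pf_KG2 a_D12

theorem a_KI2 : T_KI2 := Pool.Agent.H14.EQ.pf_KI2 a_KG2 a_G4 a_KA a_KH a_D12 a_P1 a_P3 a_P5 a_D7 a_L3 a_L6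

theorem a_KEY1K : T_KEY1K := Pool.Agent.H88.EQ.KEYKrow.pf_KEY1K a_KA a_KB a_KE a_KI2 a_P1 a_P3 a_P5 a_L1 a_L3 a_D12

theorem a_KF : T_KF := Pool.Agent.H80.EQ.pf_KF a_KA a_P1 a_P3 a_P5 a_P7 a_D12 a_L3 a_D7

theorem a_KEY2 : T_KEY2 := Pool.Agent.H88.EQ.KEYrow.pf_KEY2 a_KA a_KB a_KE2 a_KF a_KH a_KI a_P1 a_P3 a_P5 a_L1 a_L3 a_D7 a_D12

theorem a_KF2 : T_KF2 := Pool.Agent.H14.EQ.pf_KF2 a_KA a_P1 a_P3 a_P5 a_P7 a_D12 a_L3 a_D7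

theorem a_KEY2K : T_KEY2K := Pool.Agent.H88.EQ.KEYKrow.pf_KEY2K a_KA a_KB a_KE2 a_KF2 a_KG2 a_KH a_KI2 a_P1 a_P3 a_P5 a_L1 a_L3 a_D7 a_D12

theorem a_KJ : T_KJ := Pool.Agent.H43.EQ.pf_KJ a_L6 a_L1 a_L2 a_W6 a_W2 a_W1 a_W3 a_W7 a_D12

theorem a_KL : T_KL := Pool.Agent.H72.EQ.pf_KL a_D12 a_KB

theorem a_KM : T_KM := Pool.Agent.H60.EQD.pf_KM a_TN a_P1 a_P2 a_P3 a_P5 a_D5 a_S5 a_L3

theorem a_KS : T_KS := Pool.Agent.H4.EQ.ks a_D7 a_KEY1 a_KEY2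

theorem a_P4 : T_P4 := Pool.Agent.H89.EQ.pf_P4 a_L6 a_A15

theorem a_KN : T_KN := Pool.Agent.H43.EQ.pf_KN a_KS a_KJ a_KL a_KM a_P4 a_D12 a_L6 a_P5 a_D7 a_P1 a_P3 a_L1 a_L2 a_L3 a_W6 a_W1

theorem a_KS2 : T_KS2 := Pool.Agent.H53.EQ.pf_KS2 a_KEY1K a_KEY2K a_D7

theorem a_KN2 : T_KN2 := Pool.Agent.H43.EQ.pf_KN2 a_KS2 a_KJ a_KL a_KM a_P4 a_D12 a_L6 a_P5 a_D7 a_P1 a_P3 a_L1 a_L2 a_L3 a_W6 a_W1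

theorem a_KO : T_KO := Pool.Agent.H36.EQ.pf_KO a_L3 a_L6 a_TH a_TN a_IA a_P1 a_L1 a_P3 a_P5 a_D7 a_D12

theorem a_KP2 : T_KP2 := Pool.Agent.H62.EQ.pf_KP2 a_KA a_KH a_P5 a_P7 a_D7 a_D12 a_L3 a_L6

theorem a_KO2 : T_KO2 := Pool.Agent.H4.EQ.pf_KO2 a_KP2 a_L3 a_L6 a_TH a_TN a_IA a_P1 a_L1 a_P3 a_P5 a_D7 a_D12

theorem a_TG : T_TG := Pool.Agent.H95.EQ.pf_TG 

theorem a_TB : T_TB := Pool.Agent.H39.EQ.TB.pf_TB a_W0 a_W2 a_W3 a_W4 a_W9 a_D1 a_D2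

theorem a_TC : T_TC := Pool.Agent.H50.EQ.pf_TC a_W0 a_W1 a_W5 a_W6 a_W8 a_A5

theorem a_TA : T_TA := Pool.Agent.H79.EQ.pf_TA a_W6

theorem a_TD : T_TD := Pool.Agent.H89.EQ.pf_TD a_A1 a_A7 a_A11 a_A16 a_S3 a_S4 a_S5 a_W6 a_W7 a_W8 a_W9 a_TA a_TC

theorem a_TC2 : T_TC2 := Pool.Agent.H47.EQ.tc2 a_TA a_W6

theorem a_TE : T_TE := Pool.Agent.H47.EQ.te a_TB a_TC a_W4 a_W9 a_A8

theorem a_TF : T_TF := Pool.Agent.H39.EQ.TF.pf_TF a_TA a_TB a_TC a_TC2 a_TD a_TE a_A1 a_A2 a_A4 a_P3 a_W1 a_W4 a_W6 a_W8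

theorem a_TI : T_TI := Pool.Agent.H14.EQ.pf_TI a_W6 a_A1 a_TB a_TC a_TD a_TF a_TG a_TN a_L1 a_L3 a_L6

theorem a_TJ : T_TJ := Pool.Agent.H84.EQ.pf_TJ 

theorem a_TK : T_TK := Pool.Agent.H84.EQ.pf_TK 

theorem a_TL : T_TL := Pool.Agent.H69.EQ.pf_TL 

theorem a_TM : T_TM := Pool.Agent.H69.EQ.pf_TM 

theorem a_TZ : T_TZ := Pool.Agent.H14.EQ.pf_TZ a_TG a_TH a_TI a_TJ a_TK a_TL a_TM a_TN a_L1 a_L6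

theorem a_LA : T_LA := Pool.Agent.H88.EQ.LArow.pf_LA a_A1 a_A9 a_A11 a_A12 a_A14 a_TA a_L1 a_L2 a_W9

theorem a_LB : T_LB := Pool.Agent.H40.EQ.pf_LB a_W0 a_W1 a_W5 a_W6 a_W7 a_W8 a_W9 a_A1 a_A7 a_A9 a_A10 a_A11 a_L2 a_S0 a_S1 a_S4 a_S5 a_TA

theorem a_LC : T_LC := Pool.Agent.H80.EQ.pf_LC a_W9

theorem a_LD : T_LD := Pool.Agent.H88.EQ.LDrow.pf_LD 

theorem a_LE : T_LE := Pool.Agent.H35.EQ.pf_LE a_A1 a_LA a_LB a_LC a_LD a_TB a_TN a_L2 a_L6 a_A13b a_P3 a_P4 a_P5 a_S5 a_W6 a_W9 a_D8 a_D11 a_D13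

theorem a_KZ : T_KZ := Pool.Agent.H72.EQ.pf_KZ a_KN a_KO a_TZ a_IZ a_LE

theorem a_KZ2 : T_KZ2 := Pool.Agent.H14.EQ.pf_KZ2 a_KN2 a_KO2 a_TZ a_IZ a_LE

end Pool.Agent.H92.EQ.All
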