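import Pool.Agent.H92.EQ.TP

/-!
The family of closed cones away from the totally invariant sets is stable by preimages;
the theorem from the blocks.
-/

namespace Pool.Agent.H92.EQ

open scoped BigOperators ComplexConjugate ContDiff ComplexOrder
open MeasureTheory

variable {N : ℕ}

theorem ev_cont (F : Fin N → MvPolynomial (Fin N) ℂ) : Continuous (ev F) := by
  unfold ev
  exact continuous_pi fun i => MvPolynomial.continuous_eval _

theorem away_pre (hD : T_D11) {d : ℕ} {F : Fin N → MvPolynomial (Fin N) ℂ}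
    {K : Set (Fin N → ℂ)} (hd : 1 ≤ d) (hF : IsH d F) (h : AwayInv F K) :
    AwayInv F (ev F ⁻¹' K) := by
  have hs := (hD N d d F F hd hd hF hF).2.1
  have h0 : ev F 0 = 0 := by
    have := hs 0 0
    simpa [zero_pow (by omega : d ≠ 0)] using this
  refine ⟨?_, ?_, ?_⟩
  · have : ev F ⁻¹' K ∪ {0} = ev F ⁻¹' (K ∪ {0}) := by
      ext z
      simp only [Set.mem_union, Set.mem_preimage, Set.mem_singleton_iff]
      constructor
      · rintro (hz | hz)
        · exact Or.inl hz
        · right
          rw [hz, h0]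
      · rintro (hz | hz)
        · exact Or.inl hz
        · exact Or.inr (hF.nd z hz)
    rw [this]
    exact h.1.preimage (ev_cont F)
  · intro z hz l hl
    simp only [Set.mem_preimage] at hz ⊢
    rw [hs]
    exact h.2.1 _ hz _ (pow_ne_zero _ hl)
  · intro A hA hne hinv z hz hz0 hall
    have hz1 : ev F z ≠ 0 := fun hh => hz0 (hF.nd z hh)
    exact h.2.2 A hA hne hinv (ev F z) hz hz1 ((hinv z hz0).2 hall)

theorem stK_away (hD : T_D11) {d : ℕ} {F : Fin N → MvPolynomial (Fin N) ℂ} (hd : 1 ≤ d)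
    (hF : IsH d F) : StK F {K | AwayInv F K} := fun _ hK => away_pre hD hd hF hK

/-- The theorem from the blocks. -/
theorem conv_away (hD : T_D11) (hK : T_KZ2) (hP : T_PZ) (hL : T_LE) (hT : T_TZ) (hI : T_IZ)
    (d p : ℕ) (F : Fin N → MvPolynomial (Fin N) ℂ) (K : Set (Fin N → ℂ)) (hd : 2 ≤ d)
    (hF : IsH d F) (h : AwayInv F K) : ConvK F d p K :=
  hK N d p F {K | AwayInv F K} hd hF (stK_away hD (by omega) hF)
    (fun K' hK' => hP (fun k => ⟨hL _ _ _, hT _ _ _, hI _ _ _⟩) N d F K' hd hF hK') K h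

end Pool.Agent.H92.EQ
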