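import Pool.Agent.H92.EQ.Sets
import Pool.Agent.H92.EQ.AllP

/-!
# Equidistribution in every codimension, away from the totally invariant sets
-/

set_option autoImplicit false

open Filter Topology
open Pool.Agent.H92.EQ

namespace Pool.Agent.H92.EQ.AwayOld

/-- Let `f` be a holomorphic endomorphism of `ℙ^(N-1)` of degree `d ≥ 2`, with lift `F`, and let
`K` be a closed set disjoint from all totally invariant proper algebraic sets.  Then
`d^(-pn) (f^n)^* S` and `d^(-pn) (f^n)^* ω^p` have the same limit, uniformly over all smooth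
positive closed `(p,p)`-forms `S` with the mass of `ω^p` which vanish outside `K`. -/
theorem result : ∀ (N d p q : ℕ) (F : Fin N → MvPolynomial (Fin N) ℂ) (K : Set (Fin N → ℂ)),
    2 ≤ d → p + q + 1 = N → IsH d F → ClosedCone K → (∀ A, TotInv F A → Disjoint K (Zer A)) →
    ∀ (φ : (Fin N → ℂ) → ℝ) (u : Fin q → (Fin N → ℂ) → ℝ), Hom0 φ → (∀ j, Pot (u j)) →
    ∃ L : ℝ, Tendsto (fun n => pair φ (Sn F d n (om N p)) u) atTop (𝓝 L) ∧
      ∀ ε : ℝ, 0 < ε → ∃ n0 : ℕ, ∀ n ≥ n0, ∀ S : Form (Fin N) p, ProjForm S → VanOff K S →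
        mass q S = mass q (om N p) → |pair φ (Sn F d n S) u - L| < ε := by
  intro N d p q F K hd hpq hF hK hA φ u hφ hu
  have hAw : AwayInv F K := by
    refine ⟨hK.1, hK.2, fun A hhom hne hinv z hz hz0 hall => ?_⟩
    have hT : TotInv F A := by
      refine ⟨hhom, hne, fun w hw => ?_⟩
      have hFw : ev F w ≠ 0 := fun hh => hw (hF.nd w hh)
      exact ⟨fun hh => ⟨hw, (hinv w hw).1 hh.2⟩, fun hh => ⟨hFw, (hinv w hw).2 hh.2⟩⟩
    exact Set.disjoint_left.1 (hA A hT) hz ⟨hz0, hall⟩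
  exact fin_form All.conv_all All.a_KP2 N d p q F K hd hpq hF hAw φ u hφ hu

end Pool.Agent.H92.EQ.AwayOld
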