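import Mathlib

/-!
Definitions for the equidistribution theorem (MP_75a732_an).

Projective space of dimension `k = N - 1` is described by homogeneous coordinates
`z : Fin N → ℂ`, `z ≠ 0`.  Forms of bidegree `(p,p)` are given by their coefficients
`S z I J` (`I, J : Fin p → Fin N`) in the coordinates of `ℂ^N`.
-/

namespace Pool.Agent.H92.EQ

open scoped BigOperators ComplexConjugate ContDiff ComplexOrder
open MeasureTheory

noncomputable section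

variable {ι κ : Type} [Fintype ι] [DecidableEq ι] [Fintype κ] [DecidableEq κ]

/-- The derivative `∂/∂z_a`. -/
def wd (a : ι) (f : (ι → ℂ) → ℂ) (z : ι → ℂ) : ℂ :=
  (fderiv ℝ f z (Pi.single a 1) - Complex.I * fderiv ℝ f z (Pi.single a Complex.I)) / 2

/-- The derivative `∂/∂(conj z_a)`. -/
def wdb (a : ι) (f : (ι → ℂ) → ℂ) (z : ι → ℂ) : ℂ :=
  (fderiv ℝ f z (Pi.single a 1) + Complex.I * fderiv ℝ f z (Pi.single a Complex.I)) / 2

/-- The complex Hessian `(∂²f/∂z_a ∂(conj z_b))`. -/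
def hess (f : (ι → ℂ) → ℂ) (z : ι → ℂ) : Matrix ι ι ℂ :=
  fun a b => wd a (fun w => wdb b f w) z

/-- The complex Hessian of a real function. -/
def hessR (φ : (ι → ℂ) → ℝ) (z : ι → ℂ) : Matrix ι ι ℂ := hess (fun w => (φ w : ℂ)) z

/-- Coefficients of `(p,p)`-forms. -/
abbrev Form (ι : Type) (p : ℕ) := (ι → ℂ) → (Fin p → ι) → (Fin p → ι) → ℂ

/-- `S` is a smooth closed positive `(p,p)`-form on `U`. -/
structure ClosedPos {p : ℕ} (U : Set (ι → ℂ)) (S : Form ι p) : Prop where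
  smooth : ∀ I J, ContDiffOn ℝ ∞ (fun z => S z I J) U
  altL : ∀ z ∈ U, ∀ (π : Equiv.Perm (Fin p)) I J,
    S z (I ∘ π) J = ((Equiv.Perm.sign π : ℤ) : ℂ) * S z I J
  altR : ∀ z ∈ U, ∀ (π : Equiv.Perm (Fin p)) I J,
    S z I (J ∘ π) = ((Equiv.Perm.sign π : ℤ) : ℂ) * S z I J
  psd : ∀ z ∈ U, ∀ c : (Fin p → ι) → ℂ, 0 ≤ ∑ I, ∑ J, c I * conj (c J) * S z I J
  closedL : ∀ z ∈ U, ∀ (I : Fin (p + 1) → ι) (J : Fin p → ι),
    ∑ j : Fin (p + 1), (-1 : ℂ) ^ (j : ℕ) * wd (I j) (fun w => S w (I ∘ j.succAbove) J) z = 0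
  closedR : ∀ z ∈ U, ∀ (I : Fin p → ι) (J : Fin (p + 1) → ι),
    ∑ j : Fin (p + 1), (-1 : ℂ) ^ (j : ℕ) * wdb (J j) (fun w => S w I (J ∘ j.succAbove)) z = 0

/-- `S` is a smooth closed positive `(p,p)`-form on projective space. -/
structure ProjForm {N p : ℕ} (S : Form (Fin N) p) : Prop where
  cp : ClosedPos {0}ᶜ S
  homog : ∀ (l : ℂ) (z : Fin N → ℂ), l ≠ 0 → z ≠ 0 → ∀ I J,
    S (l • z) I J = ((‖l‖ ^ (2 * p))⁻¹ : ℝ) * S z I J
  basicL : ∀ z : Fin N → ℂ, z ≠ 0 → ∀ I J (j : Fin p),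
    ∑ a, z a * S z (Function.update I j a) J = 0
  basicR : ∀ z : Fin N → ℂ, z ≠ 0 → ∀ I J (j : Fin p),
    ∑ a, conj (z a) * S z I (Function.update J j a) = 0

/-- The exterior product of a `(p,p)`-form with `m` forms of bidegree `(1,1)`, `p + m = |ι|`,
as a multiple of the volume form. -/
def mixD {p m : ℕ} (S : (Fin p → ι) → (Fin p → ι) → ℂ) (H : Fin m → Matrix ι ι ℂ) : ℂ :=
  ∑ e : (Fin p ⊕ Fin m) ≃ ι, ∑ e' : (Fin p ⊕ Fin m) ≃ ι,
    ((Equiv.Perm.sign (e.trans e'.symm) : ℤ) : ℂ) *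
      S (fun i => e (Sum.inl i)) (fun i => e' (Sum.inl i)) *
      ∏ j, H j (e (Sum.inr j)) (e' (Sum.inr j))

/-- The exterior product of a `(p,p)`-form with a `(1,1)`-form. -/
def wedge {p : ℕ} (S : (Fin p → ι) → (Fin p → ι) → ℂ) (H : Matrix ι ι ℂ) :
    (Fin (p + 1) → ι) → (Fin (p + 1) → ι) → ℂ :=
  fun I J => ((p + 1 : ℂ) ^ 2)⁻¹ * ∑ a : Fin (p + 1), ∑ b : Fin (p + 1),
    (-1 : ℂ) ^ ((a : ℕ) + (b : ℕ)) * S (I ∘ a.succAbove) (J ∘ b.succAbove) * H (I a) (J b)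

/-- `|z|²`. -/
def nsq (z : ι → ℂ) : ℝ := ∑ i, ‖z i‖ ^ 2

/-- `log |z|`. -/
def ell (z : ι → ℂ) : ℝ := (1 / 2) * Real.log (nsq z)

/-- `∂ log|z| ∧ conj`, the radial `(1,1)`-form. -/
def Rad (z : ι → ℂ) : Matrix ι ι ℂ :=
  fun a b => conj (z a) * z b / (4 * ((nsq z : ℝ) : ℂ) ^ 2)

/-- The powers of the Fubini-Study form. -/
def om (N : ℕ) : (p : ℕ) → Form (Fin N) p
  | 0 => fun _ _ _ => 1
  | (p + 1) => fun z => wedge (om N p z) (hessR ell z)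

/-- `S ∧ dd^c u_1 ∧ ... ∧ dd^c u_q`, a density on projective space. -/
def Q {N p q : ℕ} (S : Form (Fin N) p) (u : Fin q → (Fin N → ℂ) → ℝ) (z : Fin N → ℂ) : ℝ :=
  (mixD (S z) (Fin.snoc (α := fun _ => Matrix (Fin N) (Fin N) ℂ)
    (fun j => hessR (u j) z) (Rad z))).re

/-- The integral of a density over projective space. -/
def Iint {N : ℕ} (ψ : (Fin N → ℂ) → ℝ) : ℝ :=
  ∫ z in {z : Fin N → ℂ | 0 ≤ ell z ∧ ell z < 1}, ψ z

/-- The value of the current `S` on the test form `φ dd^c u_1 ∧ ... ∧ dd^c u_q`. -/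
def pair {N p q : ℕ} (φ : (Fin N → ℂ) → ℝ) (S : Form (Fin N) p)
    (u : Fin q → (Fin N → ℂ) → ℝ) : ℝ :=
  Iint (fun z => φ z * Q S u z)

/-- The mass of `S`. -/
def mass {N p : ℕ} (q : ℕ) (S : Form (Fin N) p) : ℝ :=
  pair (fun _ => 1) S (fun _ : Fin q => ell)

/-- A smooth function on projective space. -/
structure Hom0 {N : ℕ} (φ : (Fin N → ℂ) → ℝ) : Prop where
  smooth : ContDiffOn ℝ ∞ φ {0}ᶜ
  hom : ∀ (l : ℂ) (z : Fin N → ℂ), l ≠ 0 → z ≠ 0 → φ (l • z) = φ z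

/-- A smooth potential of a positive closed `(1,1)`-form on projective space of mass one. -/
structure Pot {N : ℕ} (u : (Fin N → ℂ) → ℝ) : Prop where
  smooth : ContDiffOn ℝ ∞ u {0}ᶜ
  loghom : ∀ (l : ℂ) (z : Fin N → ℂ), l ≠ 0 → z ≠ 0 → u (l • z) = u z + Real.log ‖l‖
  psh : ∀ z : Fin N → ℂ, z ≠ 0 → (hessR u z).PosSemidef

/-- The polynomial map with components `G i`. -/
def ev (G : ι → MvPolynomial κ ℂ) (z : κ → ℂ) : ι → ℂ := fun i => MvPolynomial.eval z (G i)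

/-- Its Jacobian matrix. -/
def jac (G : ι → MvPolynomial κ ℂ) (z : κ → ℂ) : Matrix ι κ ℂ :=
  fun i a => MvPolynomial.eval z (MvPolynomial.pderiv a (G i))

/-- The pull-back of a form by a polynomial map. -/
def pull {p : ℕ} (G : ι → MvPolynomial κ ℂ) (S : Form ι p) : Form κ p :=
  fun z I J => ∑ I' : Fin p → ι, ∑ J' : Fin p → ι,
    S (ev G z) I' J' * (∏ l, jac G z (I' l) (I l)) * ∏ l, conj (jac G z (J' l) (J l))

/-- A holomorphic endomorphism of projective space of degree `D`. -/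
structure IsH {N : ℕ} (D : ℕ) (G : Fin N → MvPolynomial (Fin N) ℂ) : Prop where
  hom : ∀ i, (G i).IsHomogeneous D
  nd : ∀ z, ev G z = 0 → z = 0

/-- Iterates. -/
def iter {N : ℕ} (F : Fin N → MvPolynomial (Fin N) ℂ) : ℕ → Fin N → MvPolynomial (Fin N) ℂ
  | 0 => fun i => MvPolynomial.X i
  | (n + 1) => fun i => MvPolynomial.bind₁ (iter F n) (F i)

/-- `S_n = d^(-pn) (f^n)^* S`. -/
def Sn {N p : ℕ} (F : Fin N → MvPolynomial (Fin N) ℂ) (d n : ℕ) (S : Form (Fin N) p) :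
    Form (Fin N) p :=
  fun z I J => ((d : ℂ) ^ (p * n))⁻¹ * pull (iter F n) S z I J

/-- No nonempty closed set `K`, contained in an algebraic hypersurface, satisfies `f⁻¹(K) ⊆ K`.
(Taking Zariski closures: there is no totally invariant proper algebraic set.) -/
def NoTotInv {N : ℕ} (F : Fin N → MvPolynomial (Fin N) ℂ) : Prop :=
  ∀ (h : MvPolynomial (Fin N) ℂ) (K : Set (Fin N → ℂ)), h ≠ 0 → K.Nonempty →
    (∀ z ∈ K, z ≠ 0) → IsClosed (K ∪ {0}) → (∀ z ∈ K, ∀ l : ℂ, l ≠ 0 → l • z ∈ K) →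
    (∀ z ∈ K, MvPolynomial.eval z h = 0) → ¬ (∀ z, z ≠ 0 → ev F z ∈ K → z ∈ K)

/-- The final statement. -/
def Goal : Prop :=
  ∀ (N d p q : ℕ) (F : Fin N → MvPolynomial (Fin N) ℂ), 2 ≤ d → p + q + 1 = N → IsH d F →
    NoTotInv F → ∀ (φ : (Fin N → ℂ) → ℝ) (u : Fin q → (Fin N → ℂ) → ℝ), Hom0 φ →
    (∀ j, Pot (u j)) → ∀ ε : ℝ, 0 < ε → ∃ n0 : ℕ, ∀ n ≥ n0, ∀ S : Form (Fin N) p,
      ProjForm S → mass q S = mass q (om N p) →
      |pair φ (Sn F d n S) u - pair φ (Sn F d n (om N p)) u| < ε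

end

end Pool.Agent.H92.EQ
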