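import Pool.Agent.H92.EQ.Defs

/-!
Interfaces between the blocks of the board (MP_75a732_an).
-/

namespace Pool.Agent.H92.EQ

open scoped BigOperators ComplexConjugate ContDiff ComplexOrder
open MeasureTheory

noncomputable section

/-- `|z|`. -/
def nrm {ι : Type} [Fintype ι] (z : ι → ℂ) : ℝ := Real.sqrt (nsq z)

/-- The linear map with matrix `A`. -/
def lin {N : ℕ} (A : Matrix (Fin N) (Fin N) ℂ) : Fin N → MvPolynomial (Fin N) ℂ :=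
  fun i => ∑ j, MvPolynomial.C (A i j) * MvPolynomial.X j

/-- Composition: `ev (cmp G H) z = ev G (ev H z)`. -/
def cmp {N : ℕ} (G H : Fin N → MvPolynomial (Fin N) ℂ) : Fin N → MvPolynomial (Fin N) ℂ :=
  fun i => MvPolynomial.bind₁ H (G i)

/-- The Jacobian determinant as a polynomial (homogeneous of degree `N (d-1)`). -/
def detP {N : ℕ} (F : Fin N → MvPolynomial (Fin N) ℂ) : MvPolynomial (Fin N) ℂ :=
  (Matrix.of fun i a => MvPolynomial.pderiv a (F i)).det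

/-- The modulus of a homogeneous polynomial of degree `m`, as a function on projective space. -/
def nv {N : ℕ} (h : MvPolynomial (Fin N) ℂ) (m : ℕ) (z : Fin N → ℂ) : ℝ :=
  ‖MvPolynomial.eval z h‖ / nrm z ^ m

/-- `a(A) = <(A o Φ)^* S, φ dd^c u_1 ... dd^c u_q>`. -/
def am {N p q : ℕ} (φ : (Fin N → ℂ) → ℝ) (Φ : Fin N → MvPolynomial (Fin N) ℂ)
    (S : Form (Fin N) p) (u : Fin q → (Fin N → ℂ) → ℝ) (A : Matrix (Fin N) (Fin N) ℂ) : ℝ :=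
  pair φ (pull (cmp (lin A) Φ) S) u

/-- The standard Gaussian density on matrices. -/
def gss {N : ℕ} (X : Fin N → Fin N → ℂ) : ℝ :=
  ∏ i, ∏ j, Real.pi⁻¹ * Real.exp (-‖X i j‖ ^ 2)

/-- BLOCK T: changing `I + θ X` into `X`, `X` a Gaussian matrix. -/
def TGauss (N p q : ℕ) : Prop :=
  ∃ c : ℝ, 0 < c ∧ ∀ (D : ℕ) (Φ : Fin N → MvPolynomial (Fin N) ℂ), 1 ≤ D → IsH D Φ →
    ∀ (w w' : (Fin N → ℂ) → ℝ) (u : Fin q → (Fin N → ℂ) → ℝ), Pot w → Pot w' →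
    (∀ j, Pot (u j)) → ∀ S : Form (Fin N) p, ProjForm S → ∀ θ : ℝ, 0 < θ → θ ≤ 1 →
    Integrable (fun X : Fin N → Fin N → ℂ =>
      gss X * am (fun z => w z - w' z) Φ S u (1 + (θ : ℂ) • Matrix.of X)) ∧
    Integrable (fun X : Fin N → Fin N → ℂ =>
      gss X * am (fun z => w z - w' z) Φ S u (Matrix.of X)) ∧
    |(∫ X : Fin N → Fin N → ℂ,
        gss X * am (fun z => w z - w' z) Φ S u (1 + (θ : ℂ) • Matrix.of X)) -
      ∫ X : Fin N → Fin N → ℂ, gss X * am (fun z => w z - w' z) Φ S u (Matrix.of X)| ≤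
      c * (1 + Real.log (1 / θ)) * ((D : ℝ) ^ p / D) * mass q S

/-- BLOCK I: the mean over Gaussian matrices. -/
def GaussMean (N p q : ℕ) : Prop :=
  ∀ (D : ℕ) (Φ : Fin N → MvPolynomial (Fin N) ℂ), 1 ≤ D → IsH D Φ →
    ∀ (φ : (Fin N → ℂ) → ℝ) (u : Fin q → (Fin N → ℂ) → ℝ), Hom0 φ → (∀ j, Pot (u j)) →
    ∀ S : Form (Fin N) p, ProjForm S → mass q S = mass q (om N p) →
    ∫ X : Fin N → Fin N → ℂ, gss X * am φ Φ S u (Matrix.of X) = pair φ (pull Φ (om N p)) u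

/-- BLOCK L: the local estimate (Lie derivative along the lifted vector fields). -/
def LocLip (N p q : ℕ) : Prop :=
  ∀ u : Fin q → (Fin N → ℂ) → ℝ, (∀ j, Pot (u j)) → ∃ c : ℝ, ∃ m : ℕ, 0 < c ∧
    ∀ (D : ℕ) (Φ : Fin N → MvPolynomial (Fin N) ℂ), 1 ≤ D → IsH D Φ →
    ∀ (κ : (Fin N → ℂ) → ℝ) (M ρ : ℝ), Hom0 κ → 1 ≤ M → 0 < ρ → ρ ≤ 1 →
    (∀ x, nrm x = 1 → |κ x| ≤ M) →
    (∀ x, nrm x = 1 → ∀ a, ‖wd a (fun w => (κ w : ℂ)) x‖ ≤ M) →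
    (∀ x, nrm x = 1 → ∀ i a, ‖jac Φ x i a‖ ≤ M * nrm (ev Φ x)) →
    (∀ x, nrm x = 1 → ∀ i a b,
      ‖MvPolynomial.eval x (MvPolynomial.pderiv b (MvPolynomial.pderiv a (Φ i)))‖ ≤
        M * nrm (ev Φ x)) →
    (∀ x, nrm x = 1 → κ x ≠ 0 → ρ * nrm (ev Φ x) ^ N ≤ ‖(jac Φ x).det‖) →
    ∀ S : Form (Fin N) p, ProjForm S →
    ∀ (A : Matrix (Fin N) (Fin N) ℂ) (τ : ℝ), 0 ≤ τ → τ ≤ 1 / (2 * N) →
    (∀ i j, ‖A i j - (1 : Matrix (Fin N) (Fin N) ℂ) i j‖ ≤ τ) →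
    |am κ Φ S u A - pair κ (pull Φ S) u| ≤ c * (M / ρ) ^ m * τ * mass q (pull Φ S)

/-- There is no totally invariant proper algebraic subset of projective space. -/
def NoTotInvAlg {N : ℕ} (F : Fin N → MvPolynomial (Fin N) ℂ) : Prop :=
  ∀ A : Set (MvPolynomial (Fin N) ℂ), (∀ h ∈ A, ∃ m, h.IsHomogeneous m) → (∃ h ∈ A, h ≠ 0) →
    (∃ z : Fin N → ℂ, z ≠ 0 ∧ ∀ h ∈ A, MvPolynomial.eval z h = 0) →
    ¬ ∀ z : Fin N → ℂ, z ≠ 0 → ((∀ h ∈ A, MvPolynomial.eval (ev F z) h = 0) ↔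
      ∀ h ∈ A, MvPolynomial.eval z h = 0)

/-- BLOCK P: near critical visits of the backward walk are rare.
(`p + 1 = N`: `σ` is a smooth probability density on projective space.) -/
def PMain (N d : ℕ) (F : Fin N → MvPolynomial (Fin N) ℂ) : Prop :=
  ∀ η : ℝ, 0 < η → ∃ i1 n0 : ℕ, ∀ n ≥ n0, ∃ h : ℕ → ℝ, (∀ i, 0 ≤ h i) ∧
    ∑ i ∈ Finset.Icc i1 n, h i ≤ η ∧
    ∀ i ∈ Finset.Icc i1 n, ∀ p, p + 1 = N → ∀ σ : Form (Fin N) p, ProjForm σ →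
      mass 0 σ = mass 0 (om N p) →
      pair (Set.indicator {z | nv (detP F) (N * (d - 1)) z <
          Real.exp (-((d : ℝ) ^ n / (n : ℝ) ^ 4))} (fun _ => 1))
        (Sn F d i σ) (fun _ : Fin 0 => ell) ≤ h i * mass 0 (om N p)

end

end Pool.Agent.H92.EQ
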