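import Pool.Agent.H92.EQ.Defs

/-!
Sets in projective space (statement of the equidistribution theorem, MP_75a732_an).
-/

namespace Pool.Agent.H92.EQ

variable {N : ℕ}

/-- The zero set in projective space of a system `A` of polynomials, as a cone without `0`. -/
def Zer (A : Set (MvPolynomial (Fin N) ℂ)) : Set (Fin N → ℂ) :=
  {z | z ≠ 0 ∧ ∀ h ∈ A, MvPolynomial.eval z h = 0}

/-- `A` consists of homogeneous polynomials, not all zero, and its zero set `Z` is totally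
invariant: `f⁻¹(Z) = Z`. -/
def TotInv (F : Fin N → MvPolynomial (Fin N) ℂ) (A : Set (MvPolynomial (Fin N) ℂ)) : Prop :=
  (∀ h ∈ A, ∃ m, h.IsHomogeneous m) ∧ (∃ h ∈ A, h ≠ 0) ∧
    ∀ z : Fin N → ℂ, z ≠ 0 → (ev F z ∈ Zer A ↔ z ∈ Zer A)

/-- `K` is (the cone over) a closed set of projective space. -/
def ClosedCone (K : Set (Fin N → ℂ)) : Prop :=
  IsClosed (K ∪ {0}) ∧ ∀ z ∈ K, ∀ l : ℂ, l ≠ 0 → l • z ∈ K

/-- The form `S` vanishes outside `K`. -/
def VanOff {p : ℕ} (K : Set (Fin N → ℂ)) (S : Form (Fin N) p) : Prop :=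
  ∀ z, z ≠ 0 → z ∉ K → ∀ I J, S z I J = 0

end Pool.Agent.H92.EQ
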