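import Pool.Agent.H92.EQ.Inter

/-!
Board MP_75a732_an, block F, part 1: Wirtinger calculus and the algebra of `mixD`.
-/

namespace Pool.Agent.H92.EQ

open scoped BigOperators ComplexConjugate ContDiff ComplexOrder
open MeasureTheory

noncomputable section

section defs

variable {ι κ : Type} [Fintype ι] [DecidableEq ι] [Fintype κ] [DecidableEq κ]

/-- A real function seen as a complex one. -/
def cx (φ : (ι → ℂ) → ℝ) : (ι → ℂ) → ℂ := fun w => (φ w : ℂ)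

/-- The matrix `x_a conj(y_b)`-like product `x_a y_b`. -/
def out (x y : ι → ℂ) : Matrix ι ι ℂ := fun a b => x a * y b

/-- The gradient `(∂f/∂z_a)`. -/
def gd (f : (ι → ℂ) → ℂ) (z : ι → ℂ) : ι → ℂ := fun a => wd a f z

/-- The gradient `(∂f/∂(conj z_a))`. -/
def gdb (f : (ι → ℂ) → ℂ) (z : ι → ℂ) : ι → ℂ := fun a => wdb a f z

/-- Closed forms without positivity. -/
structure ClosedForm {p : ℕ} (U : Set (ι → ℂ)) (S : Form ι p) : Prop where
  smooth : ∀ I J, ContDiffOn ℝ ∞ (fun z => S z I J) U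
  altL : ∀ z ∈ U, ∀ (π : Equiv.Perm (Fin p)) I J,
    S z (I ∘ π) J = ((Equiv.Perm.sign π : ℤ) : ℂ) * S z I J
  altR : ∀ z ∈ U, ∀ (π : Equiv.Perm (Fin p)) I J,
    S z I (J ∘ π) = ((Equiv.Perm.sign π : ℤ) : ℂ) * S z I J
  closedL : ∀ z ∈ U, ∀ (I : Fin (p + 1) → ι) (J : Fin p → ι),
    ∑ j : Fin (p + 1), (-1 : ℂ) ^ (j : ℕ) * wd (I j) (fun w => S w (I ∘ j.succAbove) J) z = 0
  closedR : ∀ z ∈ U, ∀ (I : Fin p → ι) (J : Fin (p + 1) → ι),
    ∑ j : Fin (p + 1), (-1 : ℂ) ^ (j : ℕ) * wdb (J j) (fun w => S w I (J ∘ j.succAbove)) z = 0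

/-- Positivity of a coefficient matrix. -/
def Psd {p : ℕ} (S : (Fin p → ι) → (Fin p → ι) → ℂ) : Prop :=
  ∀ c : (Fin p → ι) → ℂ, 0 ≤ ∑ I, ∑ J, c I * conj (c J) * S I J

/-- `v` is killed on the left by `S`. -/
def KilL {p : ℕ} (v : ι → ℂ) (S : (Fin p → ι) → (Fin p → ι) → ℂ) : Prop :=
  ∀ I J (j : Fin p), ∑ a, v a * S (Function.update I j a) J = 0

/-- `v` is killed on the right by `S`. -/
def KilR {p : ℕ} (v : ι → ℂ) (S : (Fin p → ι) → (Fin p → ι) → ℂ) : Prop :=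
  ∀ I J (j : Fin p), ∑ a, conj (v a) * S I (Function.update J j a) = 0

/-- `v` is killed on the left by the matrix `H`. -/
def MKilL (v : ι → ℂ) (H : Matrix ι ι ℂ) : Prop := ∀ b, ∑ a, v a * H a b = 0

/-- `v` is killed on the right by the matrix `H`. -/
def MKilR (v : ι → ℂ) (H : Matrix ι ι ℂ) : Prop := ∀ a, ∑ b, conj (v b) * H a b = 0

/-- The Hermitian parts of `H` are between `-B` and `B`. -/
def Dom (H B : Matrix ι ι ℂ) : Prop :=
  (B - ((1 : ℂ) / 2) • (H + H.conjTranspose)).PosSemidef ∧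
  (B + ((1 : ℂ) / 2) • (H + H.conjTranspose)).PosSemidef ∧
  (B - (-Complex.I / 2) • (H - H.conjTranspose)).PosSemidef ∧
  (B + (-Complex.I / 2) • (H - H.conjTranspose)).PosSemidef

end defs

/-! ### Wirtinger calculus -/

/-- W0: the real differential. -/
def T_W0 : Prop :=
  ∀ (ι : Type) [Fintype ι] [DecidableEq ι] (f : (ι → ℂ) → ℂ) (z v : ι → ℂ),
    fderiv ℝ f z v = ∑ i, (wd i f z * v i + wdb i f z * conj (v i))

/-- W1: rules. -/
def T_W1 : Prop :=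
  ∀ (ι : Type) [Fintype ι] [DecidableEq ι] (a : ι) (f g : (ι → ℂ) → ℂ) (z : ι → ℂ),
    DifferentiableAt ℝ f z → DifferentiableAt ℝ g z →
    wd a (fun w => f w + g w) z = wd a f z + wd a g z ∧
    wdb a (fun w => f w + g w) z = wdb a f z + wdb a g z ∧
    wd a (fun w => f w * g w) z = f z * wd a g z + g z * wd a f z ∧
    wdb a (fun w => f w * g w) z = f z * wdb a g z + g z * wdb a f z ∧
    wd a (fun w => conj (f w)) z = conj (wdb a f z) ∧
    wdb a (fun w => conj (f w)) z = conj (wd a f z)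

/-- W2: polynomials. -/
def T_W2 : Prop :=
  ∀ (ι : Type) [Fintype ι] [DecidableEq ι] (a : ι) (P : MvPolynomial ι ℂ) (z : ι → ℂ),
    wd a (fun w => MvPolynomial.eval w P) z = MvPolynomial.eval z (MvPolynomial.pderiv a P) ∧
    wdb a (fun w => MvPolynomial.eval w P) z = 0 ∧
    ContDiff ℝ ∞ (fun w : ι → ℂ => MvPolynomial.eval w P)

/-- W3: chain rule for a polynomial map inside. -/
def T_W3 : Prop :=
  ∀ (ι κ : Type) [Fintype ι] [DecidableEq ι] [Fintype κ] [DecidableEq κ]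
    (G : ι → MvPolynomial κ ℂ) (f : (ι → ℂ) → ℂ) (z : κ → ℂ) (a : κ),
    DifferentiableAt ℝ f (ev G z) →
    wd a (fun w => f (ev G w)) z = ∑ i, jac G z i a * wd i f (ev G z) ∧
    wdb a (fun w => f (ev G w)) z = ∑ i, conj (jac G z i a) * wdb i f (ev G z)

/-- W4: the complex Hessian of `f ∘ G`. -/
def T_W4 : Prop :=
  ∀ (ι κ : Type) [Fintype ι] [DecidableEq ι] [Fintype κ] [DecidableEq κ]
    (G : ι → MvPolynomial κ ℂ) (f : (ι → ℂ) → ℂ) (z : κ → ℂ),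
    ContDiffAt ℝ 2 f (ev G z) → ∀ a b,
    hess (fun w => f (ev G w)) z a b =
      ∑ i, ∑ j, jac G z i a * conj (jac G z j b) * hess f (ev G z) i j

/-- W5: symmetry of second derivatives. -/
def T_W5 : Prop :=
  ∀ (ι : Type) [Fintype ι] [DecidableEq ι] (a b : ι) (f : (ι → ℂ) → ℂ) (z : ι → ℂ),
    ContDiffAt ℝ 2 f z →
    wd a (fun w => wd b f w) z = wd b (fun w => wd a f w) z ∧
    wdb a (fun w => wdb b f w) z = wdb b (fun w => wdb a f w) z ∧
    wd a (fun w => wdb b f w) z = wdb b (fun w => wd a f w) z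

/-- W6: smoothness. -/
def T_W6 : Prop :=
  ∀ (ι : Type) [Fintype ι] [DecidableEq ι] (a : ι) (f : (ι → ℂ) → ℂ) (U : Set (ι → ℂ)),
    IsOpen U → ContDiffOn ℝ ∞ f U →
    ContDiffOn ℝ ∞ (fun w => wd a f w) U ∧ ContDiffOn ℝ ∞ (fun w => wdb a f w) U

/-- W7: the Hessian of `χ ∘ φ` and of a product. -/
def T_W7 : Prop :=
  ∀ (ι : Type) [Fintype ι] [DecidableEq ι] (φ ψ : (ι → ℂ) → ℝ) (χ : ℝ → ℝ) (z : ι → ℂ),
    ContDiffAt ℝ 2 φ z → ContDiffAt ℝ 2 ψ z → ContDiffAt ℝ 2 χ (φ z) →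
    (∀ a, wd a (cx fun w => χ (φ w)) z = ((deriv χ (φ z) : ℝ) : ℂ) * wd a (cx φ) z) ∧
    (∀ a, wdb a (cx fun w => χ (φ w)) z = ((deriv χ (φ z) : ℝ) : ℂ) * wdb a (cx φ) z) ∧
    hessR (fun w => χ (φ w)) z = ((deriv χ (φ z) : ℝ) : ℂ) • hessR φ z +
      ((deriv (deriv χ) (φ z) : ℝ) : ℂ) • out (gd (cx φ) z) (gdb (cx φ) z) ∧
    hessR (fun w => φ w * ψ w) z = (φ z : ℂ) • hessR ψ z + (ψ z : ℂ) • hessR φ z +
      out (gd (cx φ) z) (gdb (cx ψ) z) + out (gd (cx ψ) z) (gdb (cx φ) z)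

/-- W8: real functions. -/
def T_W8 : Prop :=
  ∀ (ι : Type) [Fintype ι] [DecidableEq ι] (φ : (ι → ℂ) → ℝ) (z : ι → ℂ),
    (∀ a, wdb a (cx φ) z = conj (wd a (cx φ) z)) ∧
    (ContDiffAt ℝ 2 φ z → (hessR φ z).IsHermitian)

/-- W9: the function `log |z|`. -/
def T_W9 : Prop :=
  ∀ (ι : Type) [Fintype ι] [DecidableEq ι],
    ContDiffOn ℝ ∞ (ell : (ι → ℂ) → ℝ) {0}ᶜ ∧
    ∀ z : ι → ℂ, z ≠ 0 →
    (∀ a, wd a (cx ell) z = conj (z a) / (2 * (nsq z : ℂ))) ∧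
    (∀ a, wdb a (cx ell) z = z a / (2 * (nsq z : ℂ))) ∧
    (∀ a b, hessR ell z a b = (1 / 2) * ((if a = b then 1 else 0) / (nsq z : ℂ) -
      conj (z a) * z b / (nsq z : ℂ) ^ 2)) ∧
    (hessR ell z).PosSemidef ∧
    (∀ v : ι → ℂ, ∑ a, ∑ b, v a * hessR ell z a b * conj (v b) =
      (((1 / 2) * (nsq v / nsq z - ‖∑ a, v a * conj (z a)‖ ^ 2 / nsq z ^ 2) : ℝ) : ℂ))

/-! ### Algebra of `mixD` -/

/-- A1: linearity. -/
def T_A1 : Prop :=
  ∀ (ι : Type) [Fintype ι] [DecidableEq ι] (p m : ℕ)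
    (S S' : (Fin p → ι) → (Fin p → ι) → ℂ) (H : Fin m → Matrix ι ι ℂ) (j : Fin m)
    (A B : Matrix ι ι ℂ) (c : ℂ),
    mixD S (Function.update H j (A + B)) =
      mixD S (Function.update H j A) + mixD S (Function.update H j B) ∧
    mixD S (Function.update H j (c • A)) = c * mixD S (Function.update H j A) ∧
    mixD (fun I J => S I J + S' I J) H = mixD S H + mixD S' H ∧
    mixD (fun I J => c * S I J) H = c * mixD S H

/-- A2: symmetry. -/
def T_A2 : Prop :=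
  ∀ (ι : Type) [Fintype ι] [DecidableEq ι] (p m : ℕ)
    (S : (Fin p → ι) → (Fin p → ι) → ℂ) (H : Fin m → Matrix ι ι ℂ) (π : Equiv.Perm (Fin m)),
    mixD S (fun j => H (π j)) = mixD S H

/-- A3: `wedge` and `mixD`. -/
def T_A3 : Prop :=
  ∀ (ι : Type) [Fintype ι] [DecidableEq ι] (p m : ℕ)
    (S : (Fin p → ι) → (Fin p → ι) → ℂ) (A : Matrix ι ι ℂ) (H : Fin m → Matrix ι ι ℂ),
    mixD (wedge S A) H = mixD S (Fin.cons (α := fun _ => Matrix ι ι ℂ) A H)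

/-- A4: positivity. -/
def T_A4 : Prop :=
  ∀ (ι : Type) [Fintype ι] [DecidableEq ι] (p m : ℕ)
    (S : (Fin p → ι) → (Fin p → ι) → ℂ) (H : Fin m → Matrix ι ι ℂ),
    Psd S → (∀ j, (H j).PosSemidef) → 0 ≤ mixD S H

/-- A5: reality. -/
def T_A5 : Prop :=
  ∀ (ι : Type) [Fintype ι] [DecidableEq ι] (p m : ℕ)
    (S : (Fin p → ι) → (Fin p → ι) → ℂ) (H : Fin m → Matrix ι ι ℂ),
    Psd S → (∀ j, (H j).IsHermitian) →
    (∀ I J, S J I = conj (S I J)) ∧ (mixD S H).im = 0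

/-- A6: change of basis, two sided. -/
def T_A6 : Prop :=
  ∀ (ι : Type) [Fintype ι] [DecidableEq ι] (p m : ℕ)
    (S : (Fin p → ι) → (Fin p → ι) → ℂ) (H : Fin m → Matrix ι ι ℂ) (A B : Matrix ι ι ℂ),
    mixD (fun I J => ∑ I' : Fin p → ι, ∑ J' : Fin p → ι,
        S I' J' * (∏ l, A (I' l) (I l)) * ∏ l, conj (B (J' l) (J l)))
      (fun j => fun a b => ∑ a', ∑ b', A a' a * conj (B b' b) * H j a' b') =
    A.det * conj B.det * mixD S H

/-- A7: a vector killed by everything. -/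
def T_A7 : Prop :=
  ∀ (ι : Type) [Fintype ι] [DecidableEq ι] (p m : ℕ)
    (S : (Fin p → ι) → (Fin p → ι) → ℂ) (H : Fin m → Matrix ι ι ℂ) (v : ι → ℂ),
    v ≠ 0 → KilL v S → (∀ j, MKilL v (H j)) → mixD S H = 0

/-- A8: two vectors killed by all but one slot. -/
def T_A8 : Prop :=
  ∀ (ι : Type) [Fintype ι] [DecidableEq ι] (p m : ℕ)
    (S : (Fin p → ι) → (Fin p → ι) → ℂ) (H : Fin m → Matrix ι ι ℂ) (j0 : Fin m)
    (v v' : ι → ℂ), LinearIndependent ℂ ![v, v'] → KilL v S → KilL v' S →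
    (∀ j, j ≠ j0 → MKilL v (H j) ∧ MKilL v' (H j)) → mixD S H = 0

/-- A9: the last slot only matters through its value on `v`. -/
def T_A9 : Prop :=
  ∀ (ι : Type) [Fintype ι] [DecidableEq ι] (p m : ℕ)
    (S : (Fin p → ι) → (Fin p → ι) → ℂ) (H : Fin m → Matrix ι ι ℂ) (j0 : Fin m)
    (v : ι → ℂ), v ≠ 0 → KilL v S → KilR v S →
    (∀ j, j ≠ j0 → MKilL v (H j) ∧ MKilR v (H j)) →
    ∑ a, ∑ b, v a * H j0 a b * conj (v b) = 0 → mixD S H = 0

/-- A10: two slots with the same left (right) vector. -/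
def T_A10 : Prop :=
  ∀ (ι : Type) [Fintype ι] [DecidableEq ι] (p m : ℕ)
    (S : (Fin p → ι) → (Fin p → ι) → ℂ) (H : Fin m → Matrix ι ι ℂ) (j j' : Fin m)
    (x y y' : ι → ℂ), j ≠ j' →
    (H j = out x y → H j' = out x y' → mixD S H = 0) ∧
    (H j = out y x → H j' = out y' x → mixD S H = 0)

/-- A11: splitting off the coordinate `0`. -/
def T_A11 : Prop :=
  ∀ (N p m : ℕ) (S : (Fin p → Fin (N + 1)) → (Fin p → Fin (N + 1)) → ℂ)
    (H : Fin m → Matrix (Fin (N + 1)) (Fin (N + 1)) ℂ),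
    mixD S (Fin.cons (α := fun _ => Matrix (Fin (N + 1)) (Fin (N + 1)) ℂ)
      (Matrix.single 0 0 1) H) =
    mixD (ι := Fin N) (fun I J => S (fun l => (I l).succ) (fun l => (J l).succ))
      (fun j => (H j).submatrix Fin.succ Fin.succ)

/-- A12: the contraction identity. -/
def T_A12 : Prop :=
  ∀ (ι : Type) [Fintype ι] [DecidableEq ι] (p m : ℕ)
    (S : (Fin p → ι) → (Fin p → ι) → ℂ) (H : Fin m → Matrix ι ι ℂ) (V τ x y : ι → ℂ),
    KilL V S → ∑ a, τ a * V a = 1 →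
    mixD S (Fin.cons (α := fun _ => Matrix ι ι ℂ) (out x y) H) =
      (∑ a, x a * V a) * mixD S (Fin.cons (α := fun _ => Matrix ι ι ℂ) (out τ y) H) +
      ∑ j, mixD S (Fin.cons (α := fun _ => Matrix ι ι ℂ) (out x y)
        (Function.update H j (out τ (fun b => ∑ a, V a * H j a b))))

/-- A13: domination. -/
def T_A13 : Prop :=
  ∀ (ι : Type) [Fintype ι] [DecidableEq ι] (p m : ℕ)
    (S : (Fin p → ι) → (Fin p → ι) → ℂ) (H : Fin m → Matrix ι ι ℂ) (B : Matrix ι ι ℂ),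
    Psd S → (∀ j, Dom (H j) B) →
    ‖mixD S H‖ ≤ 6 ^ m * (mixD S (fun _ : Fin m => B)).re

/-- A13b: domination with a fixed last slot. -/
def T_A13b : Prop :=
  ∀ (ι : Type) [Fintype ι] [DecidableEq ι] (p m : ℕ)
    (S : (Fin p → ι) → (Fin p → ι) → ℂ) (H : Fin m → Matrix ι ι ℂ) (B R : Matrix ι ι ℂ),
    Psd S → R.PosSemidef → (∀ j, Dom (H j) B) →
    ‖mixD S (Fin.snoc (α := fun _ => Matrix ι ι ℂ) H R)‖ ≤
      6 ^ m * (mixD S (Fin.snoc (α := fun _ => Matrix ι ι ℂ) (fun _ : Fin m => B) R)).re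

/-- A14: swapping the left vectors of two rank one slots. -/
def T_A14 : Prop :=
  ∀ (ι : Type) [Fintype ι] [DecidableEq ι] (p m : ℕ)
    (S : (Fin p → ι) → (Fin p → ι) → ℂ) (H : Fin m → Matrix ι ι ℂ) (j j' : Fin m)
    (x x' y y' : ι → ℂ), j ≠ j' →
    mixD S (Function.update (Function.update H j (out x y)) j' (out x' y')) =
      - mixD S (Function.update (Function.update H j (out x' y)) j' (out x y'))

/-- A15: monotonicity. -/
def T_A15 : Prop :=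
  ∀ (ι : Type) [Fintype ι] [DecidableEq ι] (p m : ℕ)
    (S : (Fin p → ι) → (Fin p → ι) → ℂ) (H B : Fin m → Matrix ι ι ℂ),
    Psd S → (∀ j, (H j).PosSemidef) → (∀ j, (B j - H j).PosSemidef) → mixD S H ≤ mixD S B

/-- A16: the pointwise identity behind the homogeneous Stokes formula.
`x = ∂ log|z|`, `y = conj`, `b = ∂f`, `c = conj`, `v = z`. -/
def T_A16 : Prop :=
  ∀ (ι : Type) [Fintype ι] [DecidableEq ι] (p m : ℕ)
    (S : (Fin p → ι) → (Fin p → ι) → ℂ) (H : Fin m → Matrix ι ι ℂ) (j j' : Fin m)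
    (Hf He : Matrix ι ι ℂ) (v x y b c : ι → ℂ) (f χ χ1 χ2 l : ℂ), j ≠ j' → v ≠ 0 →
    KilL v S → KilR v S → (∀ i, i ≠ j → i ≠ j' → MKilL v (H i) ∧ MKilR v (H i)) →
    MKilL v Hf → MKilR v Hf → MKilL v He → MKilR v He →
    ∑ a, v a * b a = 0 → ∑ a, conj (v a) * c a = 0 →
    mixD S (Function.update (Function.update H j
        (χ • Hf + (f * χ1) • He + (f * χ2) • out x y + χ1 • (out x c + out b y))) j'
        (l • He + out x y)) =
      χ * mixD S (Function.update (Function.update H j Hf) j' (out x y)) +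
      f * (χ1 + l * χ2) * mixD S (Function.update (Function.update H j He) j' (out x y))

end

end Pool.Agent.H92.EQ
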