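import Pool.Agent.H92.EQ.TF1

/-!
Board MP_75a732_an, block F, part 2: forms, pull-back, Stokes, potentials.
-/

namespace Pool.Agent.H92.EQ

open scoped BigOperators ComplexConjugate ContDiff ComplexOrder
open MeasureTheory

noncomputable section

/-- Log-homogeneous functions of weight `c`. -/
structure LH {N : ℕ} (c : ℝ) (u : (Fin N → ℂ) → ℝ) : Prop where
  smooth : ContDiffOn ℝ ∞ u {0}ᶜ
  hom : ∀ (l : ℂ) (z : Fin N → ℂ), l ≠ 0 → z ≠ 0 → u (l • z) = u z + c * Real.log ‖l‖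

/-! ### Forms -/

/-- D1: the pull-back of a closed form is closed. -/
def T_D1 : Prop :=
  ∀ (ι κ : Type) [Fintype ι] [DecidableEq ι] [Fintype κ] [DecidableEq κ] (p : ℕ)
    (G : ι → MvPolynomial κ ℂ) (U : Set (ι → ℂ)) (S : Form ι p), IsOpen U → ClosedForm U S →
    ClosedForm (ev G ⁻¹' U) (pull G S)

/-- D2: the pull-back of a positive form is positive. -/
def T_D2 : Prop :=
  ∀ (ι κ : Type) [Fintype ι] [DecidableEq ι] [Fintype κ] [DecidableEq κ] (p : ℕ)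
    (G : ι → MvPolynomial κ ℂ) (S : Form ι p) (z : κ → ℂ), Psd (S (ev G z)) →
    Psd (pull G S z)

/-- D3: the exterior product with `dd^c f` is closed. -/
def T_D3 : Prop :=
  ∀ (ι : Type) [Fintype ι] [DecidableEq ι] (p : ℕ) (U : Set (ι → ℂ)) (S : Form ι p)
    (f : (ι → ℂ) → ℂ), IsOpen U → ClosedForm U S → ContDiffOn ℝ ∞ f U →
    ClosedForm U (fun z => wedge (S z) (hess f z))

/-- D4: positivity of the exterior product. -/
def T_D4 : Prop :=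
  ∀ (ι : Type) [Fintype ι] [DecidableEq ι] (p : ℕ) (S : (Fin p → ι) → (Fin p → ι) → ℂ)
    (A : Matrix ι ι ℂ), Psd S → A.PosSemidef → Psd (wedge S A)

/-- D5: pull-back on projective space. -/
def T_D5 : Prop :=
  ∀ (N p D : ℕ) (G : Fin N → MvPolynomial (Fin N) ℂ) (S : Form (Fin N) p), 1 ≤ D →
    IsH D G → ProjForm S → ProjForm (pull G S)

/-- D6: exterior product on projective space; powers of the Fubini-Study form. -/
def T_D6 : Prop :=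
  ∀ (N p : ℕ) (S : Form (Fin N) p) (u : (Fin N → ℂ) → ℝ), ProjForm S → Pot u →
    ProjForm (fun z => wedge (S z) (hessR u z))

/-- D7: `ω^p` is a form on projective space, with the same mass for every `p`; positive mass. -/
def T_D7 : Prop :=
  ∀ (N p : ℕ), ProjForm (om N p) ∧
    (∀ q, p + q + 1 = N → 0 < mass q (om N p) ∧ mass q (om N p) = mass 0 (om N (p + q)))

/-- D8: functoriality. -/
def T_D8 : Prop :=
  ∀ (N p : ℕ) (G H : Fin N → MvPolynomial (Fin N) ℂ) (S : Form (Fin N) p) (z : Fin N → ℂ),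
    ev (cmp G H) z = ev G (ev H z) ∧ jac (cmp G H) z = jac G (ev H z) * jac H z ∧
    pull (cmp G H) S z = pull H (pull G S) z

/-- D9: pull-back of an exterior product with a Hessian. -/
def T_D9 : Prop :=
  ∀ (ι κ : Type) [Fintype ι] [DecidableEq ι] [Fintype κ] [DecidableEq κ] (p : ℕ)
    (G : ι → MvPolynomial κ ℂ) (S : Form ι p) (f : (ι → ℂ) → ℂ) (z : κ → ℂ),
    ContDiffAt ℝ 2 f (ev G z) →
    pull G (fun y => wedge (S y) (hess f y)) z =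
      wedge (pull G S z) (hess (fun w => f (ev G w)) z)

/-- D10: top degree forms. -/
def T_D10 : Prop :=
  ∀ (ι : Type) [Fintype ι] [DecidableEq ι] (p m : ℕ)
    (G : ι → MvPolynomial ι ℂ) (S : Form ι p) (H : Fin m → Matrix ι ι ℂ) (z : ι → ℂ),
    mixD (pull G S z) (fun j => fun a b => ∑ a', ∑ b',
      jac G z a' a * conj (jac G z b' b) * H j a' b') =
    (‖(jac G z).det‖ ^ 2 : ℝ) * mixD (S (ev G z)) H

/-- D11: homogeneity and composition. -/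
def T_D11 : Prop :=
  ∀ (N D D' : ℕ) (G H : Fin N → MvPolynomial (Fin N) ℂ), 1 ≤ D → 1 ≤ D' → IsH D G → IsH D' H →
    IsH (D * D') (cmp G H) ∧
    (∀ (l : ℂ) (z : Fin N → ℂ), ev G (l • z) = l ^ D • ev G z) ∧
    (∀ (l : ℂ) (z : Fin N → ℂ), jac G (l • z) = l ^ (D - 1) • jac G z) ∧
    (∀ z : Fin N → ℂ, (jac G z).mulVec z = (D : ℂ) • ev G z)

/-- D12: iterates. -/
def T_D12 : Prop :=
  ∀ (N d : ℕ) (F : Fin N → MvPolynomial (Fin N) ℂ), 1 ≤ d → IsH d F → ∀ m n,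
    IsH (d ^ n) (iter F n) ∧
    (∀ z, ev (iter F (m + n)) z = ev (iter F m) (ev (iter F n) z)) ∧
    (∀ z, jac (iter F (m + n)) z = jac (iter F m) (ev (iter F n) z) * jac (iter F n) z) ∧
    (∀ (p : ℕ) (S : Form (Fin N) p) z, Sn F d (m + n) S z = Sn F d n (Sn F d m S) z) ∧
    (∀ (p : ℕ) (S : Form (Fin N) p), ProjForm S → ProjForm (Sn F d n S))

/-- D13: linear maps. -/
def T_D13 : Prop :=
  ∀ (N : ℕ) (A B : Matrix (Fin N) (Fin N) ℂ) (z : Fin N → ℂ),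
    ev (lin A) z = A.mulVec z ∧ jac (lin A) z = A ∧ (A.det ≠ 0 → IsH 1 (lin A)) ∧
    (∀ (p : ℕ) (S : Form (Fin N) p),
      pull (lin (A * B)) S z = pull (lin B) (pull (lin A) S) z)

/-! ### Potentials -/

/-- L1: linear combinations of log-homogeneous functions. -/
def T_L1 : Prop :=
  ∀ (N : ℕ) (c c' α β : ℝ) (u v : (Fin N → ℂ) → ℝ),
    (LH c u → LH c' v → LH (α * c + β * c') (fun z => α * u z + β * v z)) ∧
    (Hom0 u ↔ LH 0 u) ∧ (Pot u → LH 1 u) ∧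
    (∀ (D : ℕ) (G : Fin N → MvPolynomial (Fin N) ℂ), IsH D G → LH c u →
      LH (D * c) (fun z => u (ev G z)))

/-- L2: Euler identities and homogeneity of the derivatives. -/
def T_L2 : Prop :=
  ∀ (N : ℕ) (c : ℝ) (u : (Fin N → ℂ) → ℝ), LH c u → ∀ z : Fin N → ℂ, z ≠ 0 →
    ∑ a, z a * wd a (cx u) z = c / 2 ∧ ∑ a, conj (z a) * wdb a (cx u) z = c / 2 ∧
    MKilL z (hessR u z) ∧ MKilR z (hessR u z) ∧
    ∀ l : ℂ, l ≠ 0 → (∀ a, wd a (cx u) (l • z) = l⁻¹ * wd a (cx u) z) ∧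
      hessR u (l • z) = ((‖l‖ ^ 2 : ℝ) : ℂ)⁻¹ • hessR u z

/-- L3: examples of potentials. -/
def T_L3 : Prop :=
  ∀ (N : ℕ), Pot (ell : (Fin N → ℂ) → ℝ) ∧
    (∀ (u v : (Fin N → ℂ) → ℝ) (s : ℝ), 0 ≤ s → s ≤ 1 → Pot u → Pot v →
      Pot (fun z => (1 - s) * u z + s * v z)) ∧
    (∀ (D : ℕ) (G : Fin N → MvPolynomial (Fin N) ℂ) (u : (Fin N → ℂ) → ℝ), 1 ≤ D → IsH D G →
      Pot u → Pot (fun z => (1 / (D : ℝ)) * u (ev G z)))

/-- L4: logarithms of sums of squares. -/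
def T_L4 : Prop :=
  ∀ (N M : ℕ) (κ : Type) [Fintype κ] [DecidableEq κ] (g : κ → MvPolynomial (Fin N) ℂ), 1 ≤ M →
    (∀ i, (g i).IsHomogeneous M) → (∀ z : Fin N → ℂ, z ≠ 0 → ev g z ≠ 0) →
    Pot (fun z => (1 / (M : ℝ)) * ell (ev g z))

/-- L5: the potentials `(1/M) log (|h|² + ε² |z|^(2M))^(1/2)`. -/
def T_L5 : Prop :=
  ∀ (N M : ℕ) (h : MvPolynomial (Fin N) ℂ) (ε : ℝ), 1 ≤ M → h.IsHomogeneous M → 0 < ε →
    Pot (fun z => (1 / (2 * M : ℝ)) *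
      Real.log (‖MvPolynomial.eval z h‖ ^ 2 + ε ^ 2 * nsq z ^ M))

/-- L6: bounds by compactness. -/
def T_L6 : Prop :=
  ∀ (N : ℕ),
    (∀ φ : (Fin N → ℂ) → ℝ, ContinuousOn φ {0}ᶜ →
      (∀ (r : ℝ) (z : Fin N → ℂ), 0 < r → z ≠ 0 → φ ((r : ℂ) • z) = φ z) →
      ∃ B : ℝ, 0 < B ∧ ∀ z, z ≠ 0 → |φ z| ≤ B) ∧
    (∀ u : (Fin N → ℂ) → ℝ, Pot u → ∃ C : ℝ, 0 < C ∧ ∀ z, z ≠ 0 →
      ((C : ℂ) • hessR ell z - hessR u z).PosSemidef) ∧
    (∀ φ : (Fin N → ℂ) → ℝ, Hom0 φ → ∃ C : ℝ, 0 < C ∧ Pot (fun z => ell z + φ z / C))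

/-! ### Stokes -/

/-- S0: the integral of a derivative. -/
def T_S0 : Prop :=
  ∀ (ι : Type) [Fintype ι] [DecidableEq ι] (f : (ι → ℂ) → ℂ) (a : ι),
    ContDiff ℝ 1 f → HasCompactSupport f → ∫ z, wd a f z = 0 ∧ ∫ z, wdb a f z = 0

/-- S1: divergence identity. -/
def T_S1 : Prop :=
  ∀ (ι : Type) [Fintype ι] [DecidableEq ι] (p m : ℕ) (U : Set (ι → ℂ)) (S : Form ι p)
    (f : (ι → ℂ) → ℂ) (v : Fin m → (ι → ℂ) → ℂ), IsOpen U → ClosedForm U S →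
    ContDiffOn ℝ ∞ f U → (∀ j, ContDiffOn ℝ ∞ (v j) U) → ∀ z ∈ U,
    ∑ a, wd a (fun w => mixD (S w) (Fin.cons (α := fun _ => Matrix ι ι ℂ)
        (out (Pi.single a 1) (gdb f w)) (fun j => hess (v j) w))) z =
      mixD (S z) (Fin.cons (α := fun _ => Matrix ι ι ℂ) (hess f z) (fun j => hess (v j) z)) ∧
    ∑ a, wdb a (fun w => mixD (S w) (Fin.cons (α := fun _ => Matrix ι ι ℂ)
        (out (gd f w) (Pi.single a 1)) (fun j => hess (v j) w))) z =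
      mixD (S z) (Fin.cons (α := fun _ => Matrix ι ι ℂ) (hess f z) (fun j => hess (v j) z))

/-- S2: flat Stokes, first order. -/
def T_S2 : Prop :=
  ∀ (ι : Type) [Fintype ι] [DecidableEq ι] (p m : ℕ) (U : Set (ι → ℂ)) (S : Form ι p)
    (a f : (ι → ℂ) → ℂ) (v : Fin m → (ι → ℂ) → ℂ), IsOpen U → ClosedForm U S →
    ContDiff ℝ ∞ a → HasCompactSupport a → tsupport a ⊆ U →
    ContDiffOn ℝ ∞ f U → (∀ j, ContDiffOn ℝ ∞ (v j) U) →
    ∫ z, mixD (S z) (Fin.cons (α := fun _ => Matrix ι ι ℂ)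
        (out (gd a z) (gdb f z)) (fun j => hess (v j) z)) =
      - ∫ z, a z * mixD (S z) (Fin.cons (α := fun _ => Matrix ι ι ℂ)
        (hess f z) (fun j => hess (v j) z))

/-- S3: flat Stokes, second order. -/
def T_S3 : Prop :=
  ∀ (ι : Type) [Fintype ι] [DecidableEq ι] (p m : ℕ) (U : Set (ι → ℂ)) (S : Form ι p)
    (a f : (ι → ℂ) → ℂ) (v : Fin m → (ι → ℂ) → ℂ), IsOpen U → ClosedForm U S →
    ContDiff ℝ ∞ a → HasCompactSupport a → tsupport a ⊆ U →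
    ContDiffOn ℝ ∞ f U → (∀ j, ContDiffOn ℝ ∞ (v j) U) →
    ∫ z, a z * mixD (S z) (Fin.cons (α := fun _ => Matrix ι ι ℂ)
        (hess f z) (fun j => hess (v j) z)) =
      ∫ z, f z * mixD (S z) (Fin.cons (α := fun _ => Matrix ι ι ℂ)
        (hess a z) (fun j => hess (v j) z))

/-- S4: independence of the weights. -/
def T_S4 : Prop :=
  ∀ (N : ℕ) (ψ g : (Fin N → ℂ) → ℝ) (α : ℝ) (θ : ℝ → ℝ), 0 < N → 0 < α →
    Measurable ψ → Measurable g →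
    IntegrableOn ψ {z : Fin N → ℂ | 0 ≤ ell z ∧ ell z < 1} →
    (∀ (r : ℝ) (z : Fin N → ℂ), 0 < r → z ≠ 0 → ψ ((r : ℂ) • z) = (r ^ (2 * N))⁻¹ * ψ z) →
    (∀ (r : ℝ) (z : Fin N → ℂ), 0 < r → z ≠ 0 → g ((r : ℂ) • z) = g z) →
    Measurable θ → Integrable θ →
    Integrable (fun z => ψ z * θ (α * ell z + g z)) ∧
    ∫ z, ψ z * θ (α * ell z + g z) = α⁻¹ * (∫ t, θ t) * Iint ψ

/-- S5: regularity and homogeneity of `Q`. -/
def T_S5 : Prop :=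
  ∀ (N p q : ℕ) (S : Form (Fin N) p) (u : Fin q → (Fin N → ℂ) → ℝ) (c : Fin q → ℝ),
    p + q + 1 = N → ProjForm S → (∀ j, LH (c j) (u j)) →
    ContinuousOn (fun z => Q S u z) {0}ᶜ ∧
    (∀ (l : ℂ) (z : Fin N → ℂ), l ≠ 0 → z ≠ 0 →
      Q S u (l • z) = (‖l‖ ^ (2 * N))⁻¹ * Q S u z) ∧
    (∀ z : Fin N → ℂ, z ≠ 0 →
      (Q S u z : ℂ) = mixD (S z) (Fin.snoc (α := fun _ => Matrix (Fin N) (Fin N) ℂ)
        (fun j => hessR (u j) z) (Rad z)))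

/-- S6: Stokes on projective space. -/
def T_S6 : Prop :=
  ∀ (N p q : ℕ) (S : Form (Fin N) p) (u : Fin q → (Fin N → ℂ) → ℝ) (c : Fin q → ℝ)
    (j : Fin q) (f g : (Fin N → ℂ) → ℝ), p + q + 1 = N → ProjForm S →
    (∀ i, LH (c i) (u i)) → Hom0 f → Hom0 g →
    pair f S (Function.update u j g) = pair g S (Function.update u j f)

/-! ### The degree formula -/

/-- G1: translation invariance of the push-forward of `|det|² dz`. -/
def T_G1 : Prop :=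
  ∀ (N D : ℕ) (Φ : Fin N → MvPolynomial (Fin N) ℂ), 1 ≤ D → IsH D Φ →
    ∀ (f : (Fin N → ℂ) → ℂ) (a : Fin N), ContDiff ℝ ∞ f → HasCompactSupport f →
    ∫ z, ((‖(jac Φ z).det‖ ^ 2 : ℝ) : ℂ) * wd a f (ev Φ z) = 0 ∧
    ∫ z, ((‖(jac Φ z).det‖ ^ 2 : ℝ) : ℂ) * wdb a f (ev Φ z) = 0

/-- G2: it is a multiple of Lebesgue measure. -/
def T_G2 : Prop :=
  ∀ (N D : ℕ) (Φ : Fin N → MvPolynomial (Fin N) ℂ), 1 ≤ D → IsH D Φ →
    ∃ c : ENNReal, c ≠ ⊤ ∧ Measure.map (ev Φ)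
      ((volume : Measure (Fin N → ℂ)).withDensity
        (fun z => ENNReal.ofReal (‖(jac Φ z).det‖ ^ 2))) =
      c • (volume : Measure (Fin N → ℂ))

/-- G3: the degree formula. -/
def T_G3 : Prop :=
  ∀ (N D : ℕ) (Φ : Fin N → MvPolynomial (Fin N) ℂ), 1 ≤ D → IsH D Φ →
    Measure.map (ev Φ)
      ((volume : Measure (Fin N → ℂ)).withDensity
        (fun z => ENNReal.ofReal (‖(jac Φ z).det‖ ^ 2))) =
      ((D : ENNReal) ^ N) • (volume : Measure (Fin N → ℂ))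

/-- G4: the degree formula for `pair`. -/
def T_G4 : Prop :=
  ∀ (N p q D : ℕ) (Φ : Fin N → MvPolynomial (Fin N) ℂ) (S : Form (Fin N) p)
    (u : Fin q → (Fin N → ℂ) → ℝ) (c : Fin q → ℝ) (φ : (Fin N → ℂ) → ℝ) (B : ℝ),
    p + q + 1 = N → 1 ≤ D → IsH D Φ → ProjForm S → (∀ j, LH (c j) (u j)) → Measurable φ →
    (∀ z, |φ z| ≤ B) → (∀ (l : ℂ) (z : Fin N → ℂ), l ≠ 0 → z ≠ 0 → φ (l • z) = φ z) →
    pair (fun z => φ (ev Φ z)) (pull Φ S) (fun j z => u j (ev Φ z)) =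
      (D : ℝ) ^ (N - 1) * pair φ S u

/-! ### The pairing -/

/-- P1: integrability and linearity in `φ`. -/
def T_P1 : Prop :=
  ∀ (N p q : ℕ) (S : Form (Fin N) p) (u : Fin q → (Fin N → ℂ) → ℝ) (c : Fin q → ℝ),
    p + q + 1 = N → ProjForm S → (∀ j, LH (c j) (u j)) →
    (∀ (φ : (Fin N → ℂ) → ℝ) (B : ℝ), Measurable φ → (∀ z, z ≠ 0 → |φ z| ≤ B) →
      IntegrableOn (fun z => φ z * Q S u z) {z : Fin N → ℂ | 0 ≤ ell z ∧ ell z < 1}) ∧
    (∀ (φ : (Fin N → ℂ) → ℝ), ContinuousOn φ {0}ᶜ →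
      IntegrableOn (fun z => φ z * Q S u z) {z : Fin N → ℂ | 0 ≤ ell z ∧ ell z < 1})

/-- P2: linearity and symmetry in the slots. -/
def T_P2 : Prop :=
  ∀ (N p q : ℕ) (S : Form (Fin N) p) (u : Fin q → (Fin N → ℂ) → ℝ) (c : Fin q → ℝ)
    (j : Fin q) (v w : (Fin N → ℂ) → ℝ) (c1 c2 α β : ℝ) (φ : (Fin N → ℂ) → ℝ),
    p + q + 1 = N → ProjForm S → (∀ j, LH (c j) (u j)) → LH c1 v → LH c2 w →
    (IntegrableOn (fun z => φ z * Q S (Function.update u j v) z)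
      {z : Fin N → ℂ | 0 ≤ ell z ∧ ell z < 1}) →
    (IntegrableOn (fun z => φ z * Q S (Function.update u j w) z)
      {z : Fin N → ℂ | 0 ≤ ell z ∧ ell z < 1}) →
    pair φ S (Function.update u j (fun z => α * v z + β * w z)) =
      α * pair φ S (Function.update u j v) + β * pair φ S (Function.update u j w) ∧
    ∀ π : Equiv.Perm (Fin q), pair φ S (fun j => u (π j)) = pair φ S u

/-- P3: positivity and bounds. -/
def T_P3 : Prop :=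
  ∀ (N p q : ℕ) (S : Form (Fin N) p) (u : Fin q → (Fin N → ℂ) → ℝ),
    p + q + 1 = N → ProjForm S → (∀ j, Pot (u j)) →
    (∀ z, z ≠ 0 → 0 ≤ Q S u z) ∧
    (∀ φ : (Fin N → ℂ) → ℝ, (∀ z, z ≠ 0 → 0 ≤ φ z) → 0 ≤ pair φ S u) ∧
    (pair (fun _ => 1) S u = mass q S) ∧
    (∀ (φ : (Fin N → ℂ) → ℝ) (B : ℝ), (∀ z, z ≠ 0 → |φ z| ≤ B) →
      |pair φ S u| ≤ B * mass q S)

/-- P4: comparison with the Fubini-Study form. -/
def T_P4 : Prop :=
  ∀ (N q : ℕ) (u : Fin q → (Fin N → ℂ) → ℝ), (∀ j, Pot (u j)) →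
    ∃ C : ℝ, 0 < C ∧ ∀ (p : ℕ) (S : Form (Fin N) p), p + q + 1 = N → ProjForm S →
      ∀ z, z ≠ 0 → Q S u z ≤ C * Q S (fun _ : Fin q => ell) z

/-- P5: masses of pull-backs and of exterior products. -/
def T_P5 : Prop :=
  ∀ (N p q D : ℕ) (S : Form (Fin N) p), p + q + 1 = N → ProjForm S →
    (∀ Φ : Fin N → MvPolynomial (Fin N) ℂ, 1 ≤ D → IsH D Φ →
      mass q (pull Φ S) = (D : ℝ) ^ p * mass q S) ∧
    (∀ (F : Fin N → MvPolynomial (Fin N) ℂ) (n : ℕ), 1 ≤ D → IsH D F →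
      mass q (Sn F D n S) = mass q S) ∧
    0 ≤ mass q S

/-- P6: exterior product inside `pair`. -/
def T_P6 : Prop :=
  ∀ (N p q : ℕ) (S : Form (Fin N) p) (w : (Fin N → ℂ) → ℝ) (u : Fin q → (Fin N → ℂ) → ℝ)
    (φ : (Fin N → ℂ) → ℝ),
    pair φ (fun z => wedge (S z) (hessR w z)) u =
      pair φ S (Fin.cons (α := fun _ => (Fin N → ℂ) → ℝ) w u)

/-- P7: a difference in a slot is small. -/
def T_P7 : Prop :=
  ∀ (N p q : ℕ) (S : Form (Fin N) p) (u : Fin q → (Fin N → ℂ) → ℝ) (j : Fin q)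
    (w w' v v' : (Fin N → ℂ) → ℝ) (B : ℝ), p + q + 1 = N → ProjForm S → (∀ j, Pot (u j)) →
    Pot w → Pot w' → Pot v → Pot v' → (∀ z, z ≠ 0 → |w z - w' z| ≤ B) →
    |pair (fun z => v z - v' z) S (Function.update u j w) -
      pair (fun z => v z - v' z) S (Function.update u j w')| ≤ 2 * B * mass q S

end

end Pool.Agent.H92.EQ
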