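import Pool.Agent.H92.EQ.TL

/-!
Board MP_75a732_an, block K: key estimate, local constancy, induction on the codimension.
-/

namespace Pool.Agent.H92.EQ

open scoped BigOperators ComplexConjugate ContDiff ComplexOrder
open MeasureTheory

noncomputable section

section defs

variable {N : ℕ}

/-- The potentials `d^(-n) log |F^n|`. -/
def Gn (F : Fin N → MvPolynomial (Fin N) ℂ) (d n : ℕ) (z : Fin N → ℂ) : ℝ :=
  (1 / (d : ℝ) ^ n) * ell (ev (iter F n) z)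

/-- The potential `(1/M) log (|h|² + ε² |z|^(2M))^(1/2)`. -/
def we (h : MvPolynomial (Fin N) ℂ) (M : ℕ) (ε : ℝ) (z : Fin N → ℂ) : ℝ :=
  (1 / (2 * M : ℝ)) * Real.log (‖MvPolynomial.eval z h‖ ^ 2 + ε ^ 2 * nsq z ^ M)

/-- The set where the norm of the Jacobian of `F` at `y` is less than `r`. -/
def Cr (F : Fin N → MvPolynomial (Fin N) ℂ) (d : ℕ) (r : ℝ) : Set (Fin N → ℂ) :=
  {y | nv (detP F) (N * (d - 1)) y < r}

/-- The bad part of level `i`. -/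
def beta {p : ℕ} (F : Fin N → MvPolynomial (Fin N) ℂ) (d n i q : ℕ) (r : ℝ)
    (S : Form (Fin N) p) : ℝ :=
  pair (fun z => Set.indicator (Cr F d r) (fun _ => (1 : ℝ)) (ev (iter F (n - i)) z))
    (Sn F d n S) (fun _ : Fin q => ell)

/-- Near critical visits at level `i` for points. -/
def Hit (F : Fin N → MvPolynomial (Fin N) ℂ) (d i : ℕ) (r h : ℝ) : Prop :=
  ∀ p, p + 1 = N → ∀ σ : Form (Fin N) p, ProjForm σ → mass 0 σ = mass 0 (om N p) →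
    pair (Set.indicator (Cr F d r) (fun _ => 1)) (Sn F d i σ) (fun _ : Fin 0 => ell) ≤
      h * mass 0 (om N p)

/-- The conclusion of the theorem in codimension `p`. -/
def Conv (F : Fin N → MvPolynomial (Fin N) ℂ) (d p : ℕ) : Prop :=
  ∀ q, p + q + 1 = N → ∀ (φ : (Fin N → ℂ) → ℝ) (u : Fin q → (Fin N → ℂ) → ℝ), Hom0 φ →
    (∀ j, Pot (u j)) → ∀ ε : ℝ, 0 < ε → ∃ n0 : ℕ, ∀ n ≥ n0, ∀ S : Form (Fin N) p,
      ProjForm S → mass q S = mass q (om N p) →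
      |pair φ (Sn F d n S) u - pair φ (Sn F d n (om N p)) u| < ε

/-- The relative Jacobian of `Φ`. -/
def relJ (Φ : Fin N → MvPolynomial (Fin N) ℂ) (z : Fin N → ℂ) : ℝ :=
  ‖(jac Φ z).det‖ * nrm z ^ N / nrm (ev Φ z) ^ N

/-- `a`-values are almost constant near the identity. -/
def Cst (F : Fin N → MvPolynomial (Fin N) ℂ) (d p : ℕ) : Prop :=
  ∀ q, p + q + 1 = N → ∀ (φ : (Fin N → ℂ) → ℝ) (u : Fin q → (Fin N → ℂ) → ℝ), Hom0 φ →
    (∀ z, z ≠ 0 → 0 ≤ φ z) → (∀ j, Pot (u j)) → ∀ η : ℝ, 0 < η → ∃ i1 : ℕ, ∀ δ : ℝ, 0 < δ →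
    ∃ n0 : ℕ, i1 ≤ n0 ∧ ∀ n ≥ n0, ∀ S : Form (Fin N) p, ProjForm S →
      mass q S = mass q (om N p) → ∀ A : Matrix (Fin N) (Fin N) ℂ,
      (∀ i j, ‖A i j - (1 : Matrix (Fin N) (Fin N) ℂ) i j‖ ≤ Real.exp (-(δ * (d : ℝ) ^ n))) →
      |am φ (iter F (n - i1)) (Sn F d i1 S) u A -
        (d : ℝ) ^ (p * (n - i1)) * pair φ (Sn F d n S) u| ≤ η * (d : ℝ) ^ (p * (n - i1))

end defs

/-- KA: the Green potentials. -/
def T_KA : Prop :=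
  ∀ (N d : ℕ) (F : Fin N → MvPolynomial (Fin N) ℂ), 2 ≤ d → IsH d F →
    (∀ n, Pot (Gn F d n)) ∧
    (∀ m i z, z ≠ 0 → Gn F d (m + i) z = (1 / (d : ℝ) ^ m) * Gn F d i (ev (iter F m) z)) ∧
    ∃ B : ℝ, 0 < B ∧ (∀ n z, z ≠ 0 → |Gn F d n z - ell z| ≤ B) ∧
      (∀ l n z, l ≤ n → z ≠ 0 → |Gn F d n z - Gn F d l z| ≤ B / (d : ℝ) ^ l)

/-- KB: the Jacobian. -/
def T_KB : Prop :=
  ∀ (N d : ℕ) (F : Fin N → MvPolynomial (Fin N) ℂ), 0 < N → 2 ≤ d → IsH d F →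
    detP F ≠ 0 ∧ (detP F).IsHomogeneous (N * (d - 1)) ∧
    (∀ z, MvPolynomial.eval z (detP F) = (jac F z).det) ∧
    (∃ C : ℝ, 1 ≤ C ∧ ∀ z, z ≠ 0 → nv (detP F) (N * (d - 1)) z ≤ C) ∧
    (∀ ε : ℝ, 0 < ε → Pot (we (detP F) (N * (d - 1)) ε) ∧ ∀ z, z ≠ 0 →
      (N * (d - 1) : ℕ) * (we (detP F) (N * (d - 1)) ε z - ell z) =
        (1 / 2) * Real.log (nv (detP F) (N * (d - 1)) z ^ 2 + ε ^ 2))

/-- KD: exchange. -/
def T_KD : Prop :=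
  ∀ (N p q : ℕ) (S : Form (Fin N) p) (u : Fin q → (Fin N → ℂ) → ℝ) (j : Fin q)
    (W E G L : (Fin N → ℂ) → ℝ), p + q + 1 = N → ProjForm S → (∀ j, Pot (u j)) →
    Pot W → Pot E → Pot G → Pot L →
    pair (fun z => E z - W z) S (Function.update u j L) -
      pair (fun z => E z - W z) S (Function.update u j G) =
    pair (fun z => G z - L z) S (Function.update u j W) -
      pair (fun z => G z - L z) S (Function.update u j E)

/-- KE: telescoping, crude bound. -/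
def T_KE : Prop :=
  ∀ (N p q : ℕ) (S : Form (Fin N) p) (W E G L : (Fin N → ℂ) → ℝ) (B : ℝ), p + q + 1 = N →
    ProjForm S → Pot W → Pot E → Pot G → Pot L → (∀ z, z ≠ 0 → |G z - L z| ≤ B) →
    |pair (fun z => E z - W z) S (fun _ : Fin q => L) -
      pair (fun z => E z - W z) S (fun _ : Fin q => G)| ≤ 2 * q * B * mass q S

/-- KE2: telescoping, exact form (`p+1`, one slot less). -/
def T_KE2 : Prop :=
  ∀ (N p q : ℕ) (S : Form (Fin N) p) (W E G L : (Fin N → ℂ) → ℝ), p + (q + 1) + 1 = N →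
    ProjForm S → Pot W → Pot E → Pot G → Pot L →
    pair (fun z => E z - W z) S (fun _ : Fin (q + 1) => L) -
      pair (fun z => E z - W z) S (fun _ : Fin (q + 1) => G) =
    ∑ j : Fin (q + 1),
      (pair (fun z => G z - L z) S (Fin.cons (α := fun _ => (Fin N → ℂ) → ℝ) W
          (fun k : Fin q => if (k : ℕ) < (j : ℕ) then G else L)) -
        pair (fun z => G z - L z) S (Fin.cons (α := fun _ => (Fin N → ℂ) → ℝ) E
          (fun k : Fin q => if (k : ℕ) < (j : ℕ) then G else L)))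

/-- KF: uniform smallness in codimension `p`. -/
def T_KF : Prop :=
  ∀ (N d p q : ℕ) (F : Fin N → MvPolynomial (Fin N) ℂ), 2 ≤ d → p + q + 1 = N → IsH d F →
    Conv F d p → ∀ η : ℝ, 0 < η → ∃ m0 : ℕ, ∀ m ≥ m0, ∀ n ≥ m, ∀ j : ℕ,
    ∀ R R' : Form (Fin N) p, ProjForm R → ProjForm R' → mass q R = mass q (om N p) →
    mass q R' = mass q (om N p) →
    |pair (fun z => Gn F d n z - ell z) (Sn F d m R)
        (fun k : Fin q => if (k : ℕ) < j then Gn F d n else ell) -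
      pair (fun z => Gn F d n z - ell z) (Sn F d m R')
        (fun k : Fin q => if (k : ℕ) < j then Gn F d n else ell)| ≤ η

/-- KH: absorbing a potential. -/
def T_KH : Prop :=
  ∀ (N d p q m i : ℕ) (F : Fin N → MvPolynomial (Fin N) ℂ) (S : Form (Fin N) p)
    (w : (Fin N → ℂ) → ℝ) (φ : (Fin N → ℂ) → ℝ) (u : Fin q → (Fin N → ℂ) → ℝ),
    2 ≤ d → p + (q + 1) + 1 = N → IsH d F → ProjForm S → Pot w → (∀ j, Pot (u j)) → Hom0 φ →
    ProjForm (fun z => wedge (Sn F d i S z) (hessR w z)) ∧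
    mass q (fun z => wedge (Sn F d i S z) (hessR w z)) = mass (q + 1) S ∧
    pair φ (Sn F d (i + m) S) (Fin.cons (α := fun _ => (Fin N → ℂ) → ℝ)
      (fun z => (1 / (d : ℝ) ^ m) * w (ev (iter F m) z)) u) =
    pair φ (Sn F d m (fun z => wedge (Sn F d i S z) (hessR w z))) u

/-- KI: the last term (all slots equal to the Green potential). -/
def T_KI : Prop :=
  ∀ (N d p q m i : ℕ) (F : Fin N → MvPolynomial (Fin N) ℂ) (S : Form (Fin N) p)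
    (f : (Fin N → ℂ) → ℝ) (h r a b : ℝ), 2 ≤ d → p + q + 1 = N → IsH d F → ProjForm S →
    mass q S = mass q (om N p) → Hom0 f → 0 ≤ h → 0 ≤ a → 0 ≤ b → Hit F d i r h →
    (∀ z, z ≠ 0 → f z ≤ a + b) → (∀ z, z ≠ 0 → z ∉ Cr F d r → f z ≤ b) →
    pair (fun z => f (ev (iter F m) z)) (Sn F d (i + m) S) (fun _ : Fin q => Gn F d (i + m)) ≤
      (a * h + b) * mass q (om N p)

/-- KEY1: the key estimate, crude form. -/
def T_KEY1 : Prop :=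
  ∀ (N d p q : ℕ) (F : Fin N → MvPolynomial (Fin N) ℂ), 2 ≤ d → p + q + 1 = N → IsH d F →
    ∃ C : ℝ, 0 < C ∧ ∀ (n i : ℕ) (δ r h : ℝ) (S : Form (Fin N) p), i ≤ n → 0 < δ → 0 < r →
    r ≤ 1 → 0 ≤ h → Hit F d i r h → ProjForm S → mass q S = mass q (om N p) →
    beta F d n i q (Real.exp (-(δ * (d : ℝ) ^ n))) S ≤
      (2 * h + C / (δ * (d : ℝ) ^ i) + (2 * Real.log (1 / r) + C) / (δ * (d : ℝ) ^ n)) *
        mass q (om N p)

/-- KEY2: the key estimate for a fixed level. -/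
def T_KEY2 : Prop :=
  ∀ (N d p q : ℕ) (F : Fin N → MvPolynomial (Fin N) ℂ), 2 ≤ d → p + q + 1 = N → IsH d F →
    Conv F d (p + 1) → ∃ C : ℝ, 0 < C ∧ ∀ (i : ℕ) (δ η : ℝ), 0 < δ → 0 < η → ∃ n0 : ℕ, i ≤ n0 ∧
    ∀ n ≥ n0, ∀ (r h : ℝ) (S : Form (Fin N) p), 0 < r → r ≤ 1 → 0 ≤ h → Hit F d i r h →
    ProjForm S → mass q S = mass q (om N p) →
    beta F d n i q (Real.exp (-(δ * (d : ℝ) ^ n))) S ≤
      (2 * h + η + (2 * Real.log (1 / r) + C) / (δ * (d : ℝ) ^ n)) * mass q (om N p)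

/-- KS: summation over the levels. -/
def T_KS : Prop :=
  ∀ (N d p q : ℕ) (F : Fin N → MvPolynomial (Fin N) ℂ), 2 ≤ d → p + q + 1 = N → IsH d F →
    Conv F d (p + 1) → PMain N d F → ∀ η : ℝ, 0 < η → ∃ i1 : ℕ, ∀ δ : ℝ, 0 < δ →
    ∃ n0 : ℕ, i1 ≤ n0 ∧ ∀ n ≥ n0, ∀ S : Form (Fin N) p, ProjForm S →
    mass q S = mass q (om N p) →
    ∑ i ∈ Finset.Ioc i1 n, beta F d n i q (Real.exp (-(δ / (i : ℝ) ^ 2 * (d : ℝ) ^ n))) S ≤
      η * mass q (om N p)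

/-- KJ: the cutoff. -/
def T_KJ : Prop :=
  ∀ (N d : ℕ) (F : Fin N → MvPolynomial (Fin N) ℂ), 0 < N → 2 ≤ d → IsH d F →
    ∃ K : ℝ, 1 ≤ K ∧ ∀ (n : ℕ) (ρ : ℝ), 0 < ρ → ρ ≤ 1 → ∃ κ : (Fin N → ℂ) → ℝ, Hom0 κ ∧
    (∀ x, x ≠ 0 → 0 ≤ κ x ∧ κ x ≤ 1) ∧
    (∀ x, x ≠ 0 → 2 * ρ ≤ relJ (iter F n) x → κ x = 1) ∧
    (∀ x, nrm x = 1 → ∀ a, ‖wd a (fun w => (κ w : ℂ)) x‖ ≤ K ^ (n + 1) / ρ ^ 2) ∧
    (∀ x, nrm x = 1 → ∀ i a,
      ‖jac (iter F n) x i a‖ ≤ K ^ (n + 1) * nrm (ev (iter F n) x)) ∧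
    (∀ x, nrm x = 1 → ∀ i a b,
      ‖MvPolynomial.eval x (MvPolynomial.pderiv b (MvPolynomial.pderiv a (iter F n i)))‖ ≤
        K ^ (n + 1) * nrm (ev (iter F n) x)) ∧
    (∀ x, nrm x = 1 → κ x ≠ 0 →
      ρ * nrm (ev (iter F n) x) ^ N ≤ ‖(jac (iter F n) x).det‖)

/-- KL: lower bound of the relative Jacobian. -/
def T_KL : Prop :=
  ∀ (N d : ℕ) (F : Fin N → MvPolynomial (Fin N) ℂ), 0 < N → 2 ≤ d → IsH d F →
    ∃ c : ℝ, 0 < c ∧ c ≤ 1 ∧ ∀ (n : ℕ) (x : Fin N → ℂ), x ≠ 0 →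
      c ^ n * ∏ m ∈ Finset.range n, nv (detP F) (N * (d - 1)) (ev (iter F m) x) ≤
        relJ (iter F n) x

/-- KM: the two-sided comparison. -/
def T_KM : Prop :=
  ∀ (N p q D : ℕ) (Φ : Fin N → MvPolynomial (Fin N) ℂ) (S : Form (Fin N) p)
    (κ φ : (Fin N → ℂ) → ℝ) (u : Fin q → (Fin N → ℂ) → ℝ) (B C e : ℝ)
    (A : Matrix (Fin N) (Fin N) ℂ), p + q + 1 = N → 1 ≤ D → IsH D Φ → ProjForm S →
    Hom0 κ → Hom0 φ → (∀ j, Pot (u j)) → (∀ z, z ≠ 0 → 0 ≤ κ z ∧ κ z ≤ 1) →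
    (∀ z, z ≠ 0 → 0 ≤ φ z ∧ φ z ≤ B) → 0 < C → 0 ≤ e →
    (∀ S' : Form (Fin N) p, ProjForm S' → ∀ z, z ≠ 0 →
      Q S' u z ≤ C * Q S' (fun _ : Fin q => ell) z) →
    A.det ≠ 0 →
    |am (fun z => κ z * φ z) Φ S u A - pair (fun z => κ z * φ z) (pull Φ S) u| ≤ e →
    |am κ Φ S (fun _ : Fin q => ell) A - pair κ (pull Φ S) (fun _ : Fin q => ell)| ≤ e →
    |am φ Φ S u A - pair φ (pull Φ S) u| ≤
      B * C * pair (fun z => 1 - κ z) (pull Φ S) (fun _ : Fin q => ell) + (1 + B * C) * e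

/-- KN: local constancy. -/
def T_KN : Prop :=
  ∀ (N d p : ℕ) (F : Fin N → MvPolynomial (Fin N) ℂ), 2 ≤ d → p < N → IsH d F →
    Conv F d (p + 1) → PMain N d F → (∀ q, LocLip N p q) → Cst F d p

/-- KO: the mean. -/
def T_KO : Prop :=
  ∀ (N d p : ℕ) (F : Fin N → MvPolynomial (Fin N) ℂ), 2 ≤ d → p < N → IsH d F →
    Cst F d p → (∀ q, TGauss N p q) → (∀ q, GaussMean N p q) → Conv F d p

/-- KZ: the theorem, given the block `P`. -/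
def T_KZ : Prop :=
  ∀ (N d p : ℕ) (F : Fin N → MvPolynomial (Fin N) ℂ), 2 ≤ d → IsH d F → PMain N d F →
    Conv F d p

end

end Pool.Agent.H92.EQ
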