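import Pool.Agent.H92.EQ.TT

/-!
Board MP_75a732_an, blocks L (local estimate) and I (mean over Gaussian matrices).
-/

namespace Pool.Agent.H92.EQ

open scoped BigOperators ComplexConjugate ContDiff ComplexOrder
open MeasureTheory

noncomputable section

section defs

variable {N p : ℕ}

/-- The density of the derivative of the pairing. -/
def PsiT {q : ℕ} (S : Form (Fin (N + 1)) p) (κ : (Fin N → ℂ) → ℝ)
    (u : Fin q → (Fin N → ℂ) → ℝ) (z : Fin (N + 1) → ℂ) : ℂ :=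
  mixD (S z) (Fin.cons (α := fun _ => Matrix (Fin (N + 1)) (Fin (N + 1)) ℂ)
    (out (gd (cx fun z => κ (tl z)) z) (Pi.single 0 1))
    (Fin.snoc (α := fun _ => Matrix (Fin (N + 1)) (Fin (N + 1)) ℂ)
      (fun j => hessR (fun z => u j (tl z)) z) (RadT z)))

/-- The mean of the pull-backs of `S` by Gaussian matrices. -/
def av (S : Form (Fin N) p) : Form (Fin N) p := fun y I J =>
  ∫ X : Fin N → Fin N → ℂ, (gss X : ℂ) * pull (lin (Matrix.of X)) S y I J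

/-- Invariance of a tensor under the stabiliser of `e_k` (diagonal and permutation matrices). -/
structure SymK (k : Fin N) (W : (Fin p → Fin N) → (Fin p → Fin N) → ℂ) : Prop where
  altL : ∀ (π : Equiv.Perm (Fin p)) I J,
    W (I ∘ π) J = ((Equiv.Perm.sign π : ℤ) : ℂ) * W I J
  altR : ∀ (π : Equiv.Perm (Fin p)) I J,
    W I (J ∘ π) = ((Equiv.Perm.sign π : ℤ) : ℂ) * W I J
  kil : ∀ I J, ((∃ l, I l = k) ∨ ∃ l, J l = k) → W I J = 0
  diag : ∀ v : Fin N → ℂ, (∀ i, ‖v i‖ = 1) → ∀ I J,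
    W I J * (∏ l, v (I l)) * ∏ l, conj (v (J l)) = W I J
  perm : ∀ τ : Equiv.Perm (Fin N), τ k = k → ∀ I J, W (fun l => τ (I l)) (fun l => τ (J l)) = W I J

end defs

/-! ### Block L -/

/-- LA: the contraction identity for `PsiT`. -/
def T_LA : Prop :=
  ∀ (N p q : ℕ) (V : Set ℂ) (S : Form (Fin (N + 1)) p) (κ : (Fin N → ℂ) → ℝ)
    (u : Fin q → (Fin N → ℂ) → ℝ) (t : ℂ) (x ξ : Fin N → ℂ), IsOpen V → FormT V S → Hom0 κ →
    (∀ j, Pot (u j)) → t ∈ V → x ≠ 0 → KilL (ct 1 (-ξ)) (S (ct t x)) →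
    PsiT S κ u (ct t x) =
      - (∑ i, ξ i * wd i (cx κ) x) * mixD (res S t x)
        (Fin.snoc (α := fun _ => Matrix (Fin N) (Fin N) ℂ) (fun j => hessR (u j) x) (Rad x)) +
      ∑ j, mixD (res S t x) (Fin.snoc (α := fun _ => Matrix (Fin N) (Fin N) ℂ)
        (Function.update (fun j => hessR (u j) x) j
          (out (gd (cx κ) x) (fun b => ∑ i, ξ i * hessR (u j) x i b))) (Rad x))

/-- LB: the derivative of the pairing. -/
def T_LB : Prop :=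
  ∀ (N p q : ℕ) (V : Set ℂ) (S : Form (Fin (N + 1)) p) (κ : (Fin N → ℂ) → ℝ)
    (u : Fin q → (Fin N → ℂ) → ℝ) (s : ℝ), p + q + 1 = N → IsOpen V → FormT V S → Hom0 κ →
    (∀ j, Pot (u j)) → (s : ℂ) ∈ V →
    HasDerivAt (fun s : ℝ => pair κ (res S (s : ℂ)) u)
      (2 * Iint (fun x => (PsiT S κ u (ct (s : ℂ) x)).re)) s ∧
    Measurable (fun x : Fin N → ℂ => (PsiT S κ u (ct (s : ℂ) x)).re)

/-- LC: domination of rank one matrices. -/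
def T_LC : Prop :=
  ∀ (N : ℕ) (x a b : Fin N → ℂ), x ≠ 0 → ∑ i, x i * a i = 0 → ∑ i, conj (x i) * b i = 0 →
    Dom (out a b) (((2 * nsq x * nrm a * nrm b : ℝ) : ℂ) • hessR ell x) ∧
    ∀ (u : (Fin N → ℂ) → ℝ), Pot u → ∀ C : ℝ,
      ((C : ℂ) • hessR ell x - hessR u x).PosSemidef → Dom (hessR u x) ((C : ℂ) • hessR ell x)

/-- LD: the lifted vector field. -/
def T_LD : Prop :=
  ∀ (N : ℕ), ∃ c : ℝ, 0 < c ∧ ∀ (P A : Matrix (Fin N) (Fin N) ℂ) (y : Fin N → ℂ) (M ρ τ s : ℝ),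
    1 ≤ M → 0 < ρ → ρ ≤ 1 → 0 ≤ τ → τ ≤ 1 / (2 * N) → 0 ≤ s → s ≤ 1 → y ≠ 0 →
    (∀ i j, ‖A i j - (1 : Matrix (Fin N) (Fin N) ℂ) i j‖ ≤ τ) →
    (∀ i j, ‖P i j‖ ≤ M * nrm y) → ρ * nrm y ^ N ≤ ‖P.det‖ →
    (1 + (s : ℂ) • (A - 1)).det ≠ 0 ∧
    ∃ ξ : Fin N → ℂ, ((1 + (s : ℂ) • (A - 1)) * P).mulVec ξ = (A - 1).mulVec y ∧
      nrm ξ ≤ c * M ^ N / ρ * τ

/-- LE: the block. -/
def T_LE : Prop := ∀ N p q, LocLip N p q

/-! ### Block I -/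

/-- IA: integrability. -/
def T_IA : Prop :=
  ∀ (N p : ℕ) (S : Form (Fin N) p), p < N → ProjForm S →
    (∫ X : Fin N → Fin N → ℂ, gss X = 1) ∧
    ∃ C : ℝ, ∀ (y : Fin N → ℂ), y ≠ 0 → ∀ I J,
      Integrable (fun X : Fin N → Fin N → ℂ => (gss X : ℂ) * pull (lin (Matrix.of X)) S y I J) ∧
      ∫ X : Fin N → Fin N → ℂ, ‖(gss X : ℂ) * pull (lin (Matrix.of X)) S y I J‖ ≤
        C / nrm y ^ (2 * p)

/-- IB: unitary invariance of the mean. -/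
def T_IB : Prop :=
  ∀ (N p : ℕ) (S : Form (Fin N) p) (U : Matrix (Fin N) (Fin N) ℂ), p < N → ProjForm S →
    U * U.conjTranspose = 1 → ∀ y : Fin N → ℂ, y ≠ 0 → pull (lin U) (av S) y = av S y

/-- IC: algebraic properties of the mean. -/
def T_IC : Prop :=
  ∀ (N p : ℕ) (S : Form (Fin N) p), p < N → ProjForm S → ∀ y : Fin N → ℂ, y ≠ 0 →
    KilL y (av S y) ∧ KilR y (av S y) ∧
    (∀ (π : Equiv.Perm (Fin p)) I J,
      av S y (I ∘ π) J = ((Equiv.Perm.sign π : ℤ) : ℂ) * av S y I J ∧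
      av S y I (J ∘ π) = ((Equiv.Perm.sign π : ℤ) : ℂ) * av S y I J) ∧
    (∀ (l : ℂ) I J, l ≠ 0 → av S (l • y) I J = ((‖l‖ ^ (2 * p))⁻¹ : ℝ) * av S y I J)

/-- ID: invariant tensors are unique up to a factor. -/
def T_ID : Prop :=
  ∀ (N p : ℕ) (k : Fin N) (W W' : (Fin p → Fin N) → (Fin p → Fin N) → ℂ), SymK k W → SymK k W' →
    W' ≠ 0 → ∃ c : ℂ, ∀ I J, W I J = c * W' I J

/-- IE: `ω^p` is unitarily invariant and does not vanish. -/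
def T_IE : Prop :=
  ∀ (N p : ℕ), p < N → ∀ y : Fin N → ℂ, y ≠ 0 → om N p y ≠ 0 ∧
    ∀ U : Matrix (Fin N) (Fin N) ℂ, U * U.conjTranspose = 1 →
      pull (lin U) (om N p) y = om N p y

/-- IF: the mean is a multiple of `ω^p`. -/
def T_IF : Prop :=
  ∀ (N p : ℕ) (S : Form (Fin N) p), p < N → ProjForm S →
    ∃ c : ℂ, ∀ y : Fin N → ℂ, y ≠ 0 → ∀ I J, av S y I J = c * om N p y I J

/-- IG: Fubini. -/
def T_IG : Prop :=
  ∀ (N p q D : ℕ) (Φ : Fin N → MvPolynomial (Fin N) ℂ) (S : Form (Fin N) p)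
    (φ : (Fin N → ℂ) → ℝ) (u : Fin q → (Fin N → ℂ) → ℝ), p + q + 1 = N → 1 ≤ D → IsH D Φ →
    ProjForm S → Hom0 φ → (∀ j, Pot (u j)) →
    ∫ X : Fin N → Fin N → ℂ, gss X * am φ Φ S u (Matrix.of X) = pair φ (pull Φ (av S)) u

/-- IZ: the block. -/
def T_IZ : Prop := ∀ N p q, GaussMean N p q

end

end Pool.Agent.H92.EQ
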