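import Pool.Agent.H92.EQ.TK2

/-!
Board MP_75a732_an, block P: near critical visits of the backward walk.
`N = k + 1`; `σ` is a smooth density (a form of bidegree `(k,k)`); the walk of length `L` which
starts with law `σ` is `X_i = F^(L-i)(x)`, `x` with law `Sn F d L σ`.
-/

namespace Pool.Agent.H92.EQ

open scoped BigOperators ComplexConjugate ContDiff ComplexOrder
open MeasureTheory

noncomputable section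

section defs

variable {N : ℕ}

/-- A smooth function: `1` on `(-∞,1]`, `0` on `[2,∞)`. -/
def lam (s : ℝ) : ℝ := 1 - Real.smoothTransition (s - 1)

/-- The smooth indicator of `{nv h < r}`. -/
def vis (h : MvPolynomial (Fin N) ℂ) (m : ℕ) (r : ℝ) (z : Fin N → ℂ) : ℝ :=
  lam (nv h m z ^ 2 / r ^ 2)

/-- No visit at the times `a ≤ i < b` (horizon `L`). -/
def noV (F : Fin N → MvPolynomial (Fin N) ℂ) (v : (Fin N → ℂ) → ℝ) (L a b : ℕ)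
    (x : Fin N → ℂ) : ℝ :=
  ∏ i ∈ Finset.Ico a b, (1 - v (ev (iter F (L - i)) x))

/-- The size of finitely many homogeneous polynomials. -/
def phi {s : ℕ} (h : Fin s → MvPolynomial (Fin N) ℂ) (e : Fin s → ℕ) (z : Fin N → ℂ) : ℝ :=
  ∑ j, nv (h j) (e j) z

/-- Expectations of the walk. -/
def EE {k : ℕ} (F : Fin (k + 1) → MvPolynomial (Fin (k + 1)) ℂ) (d L : ℕ)
    (σ : Form (Fin (k + 1)) k) (Ψ : (Fin (k + 1) → ℂ) → ℝ) : ℝ :=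
  pair Ψ (Sn F d L σ) (fun _ : Fin 0 => ell)

/-- The density `ρ σ`. -/
def dens {k : ℕ} (ρ : (Fin (k + 1) → ℂ) → ℝ) (σ : Form (Fin (k + 1)) k) :
    Form (Fin (k + 1)) k := fun z I J => (ρ z : ℂ) * σ z I J

/-- Hypotheses on the polynomial `P` (norm of the Jacobian). -/
structure NormJ (F : Fin N → MvPolynomial (Fin N) ℂ) (P : MvPolynomial (Fin N) ℂ)
    (M : ℕ) : Prop where
  ne : P ≠ 0
  hom : P.IsHomogeneous M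
  pos : 1 ≤ M
  dvd : detP F ∣ MvPolynomial.bind₁ F P

/-- An invariant system of equations. -/
structure InvS {s : ℕ} (F : Fin N → MvPolynomial (Fin N) ℂ)
    (h : Fin s → MvPolynomial (Fin N) ℂ) (e : Fin s → ℕ) (C : ℝ) : Prop where
  hom : ∀ i, (h i).IsHomogeneous (e i)
  ne : ∃ i, h i ≠ 0
  inv : ∀ z : Fin N → ℂ, z ≠ 0 → ((∀ i, MvPolynomial.eval (ev F z) (h i) = 0) ↔
    ∀ i, MvPolynomial.eval z (h i) = 0)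
  one : 1 ≤ C
  grow : ∀ x : Fin N → ℂ, x ≠ 0 → phi h e (ev F x) ≤ C * phi h e x

end defs

/-- PNM: norms exist. -/
def T_PNM : Prop :=
  ∀ (N D m : ℕ) (Φ : Fin N → MvPolynomial (Fin N) ℂ) (h : MvPolynomial (Fin N) ℂ), 0 < N →
    1 ≤ D → IsH D Φ → h.IsHomogeneous m → h ≠ 0 →
    ∃ (h' : MvPolynomial (Fin N) ℂ) (m' : ℕ), h' ≠ 0 ∧ h'.IsHomogeneous m' ∧
      h ∣ MvPolynomial.bind₁ Φ h'

/-- PNJ: the norm of the Jacobian. -/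
def T_PNJ : Prop :=
  ∀ (N d : ℕ) (F : Fin N → MvPolynomial (Fin N) ℂ), 0 < N → 2 ≤ d → IsH d F →
    ∃ (P : MvPolynomial (Fin N) ℂ) (M : ℕ), NormJ F P M

/-- PCH: the characteristic polynomial. -/
def T_PCH : Prop :=
  ∀ (N D m : ℕ) (Φ : Fin N → MvPolynomial (Fin N) ℂ) (G : MvPolynomial (Fin N) ℂ), 0 < N →
    1 ≤ D → 1 ≤ m → IsH D Φ → G.IsHomogeneous m → G ≠ 0 →
    ∃ (n : ℕ) (a : Fin n → MvPolynomial (Fin N) ℂ) (e : Fin n → ℕ) (C : ℝ), 0 < C ∧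
    (∀ j, (a j).IsHomogeneous (e j)) ∧ (∃ j, a j ≠ 0) ∧
    (∀ z : Fin N → ℂ, z ≠ 0 → ((∀ j, MvPolynomial.eval z (a j) = 0) ↔
      ∀ x, ev Φ x = z → MvPolynomial.eval x G = 0)) ∧
    (∀ z : Fin N → ℂ, z ≠ 0 → ∃ x, ev Φ x = z ∧ ∀ j, nv (a j) (e j) z ≤ C * nv G m x)

/-- PDS: descent. -/
def T_PDS : Prop :=
  ∀ (N d m : ℕ) (F : Fin N → MvPolynomial (Fin N) ℂ) (G : MvPolynomial (Fin N) ℂ), 0 < N →
    2 ≤ d → IsH d F → 1 ≤ m → G.IsHomogeneous m → G ≠ 0 →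
    ∃ (t s A : ℕ) (h : Fin s → MvPolynomial (Fin N) ℂ) (e : Fin s → ℕ) (C : ℝ),
    InvS F h e C ∧
    ∀ z : Fin N → ℂ, z ≠ 0 → ∃ l ≤ t, ∃ x, ev (iter F l) x = z ∧
      phi h e z ^ A ≤ C * nv G m x

/-- PDE: densities. -/
def T_PDE : Prop :=
  ∀ (k : ℕ) (ρ : (Fin (k + 1) → ℂ) → ℝ) (σ : Form (Fin (k + 1)) k), ProjForm σ → Hom0 ρ →
    (∀ z, z ≠ 0 → 0 ≤ ρ z) → ProjForm (dens ρ σ)

/-- PMK: the Markov property. -/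
def T_PMK : Prop :=
  ∀ (k d L l : ℕ) (F : Fin (k + 1) → MvPolynomial (Fin (k + 1)) ℂ)
    (σ : Form (Fin (k + 1)) k), 2 ≤ d → IsH d F → ProjForm σ →
    (∀ (φ : (Fin (k + 1) → ℂ) → ℝ) (B : ℝ), Measurable φ → (∀ z, |φ z| ≤ B) →
      (∀ (c : ℂ) (z : Fin (k + 1) → ℂ), c ≠ 0 → z ≠ 0 → φ (c • z) = φ z) →
      EE F d (L + l) σ (fun x => φ (ev (iter F l) x)) = EE F d L σ φ) ∧
    (∀ (φ : (Fin (k + 1) → ℂ) → ℝ), Hom0 φ →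
      EE F d (L + l) σ (fun x => φ (ev (iter F l) x)) = EE F d L σ φ) ∧
    (∀ g Ψ : (Fin (k + 1) → ℂ) → ℝ,
      EE F d (l + L) σ (fun x => g (ev (iter F L) x) * Ψ x) =
        EE F d L (dens g (Sn F d l σ)) Ψ) ∧
    (∀ g : (Fin (k + 1) → ℂ) → ℝ, mass 0 (dens g (Sn F d l σ)) = EE F d l σ g) ∧
    (∀ φ ψ : (Fin (k + 1) → ℂ) → ℝ, Hom0 φ → Hom0 ψ → (∀ z, z ≠ 0 → φ z ≤ ψ z) →
      EE F d L σ φ ≤ EE F d L σ ψ) ∧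
    EE F d L σ (fun _ => 1) = mass 0 σ

/-- PVI: the weights. -/
def T_PVI : Prop :=
  ∀ (N m : ℕ) (h : MvPolynomial (Fin N) ℂ) (r : ℝ), h.IsHomogeneous m → 0 < r →
    Hom0 (vis h m r) ∧ (∀ z, 0 ≤ vis h m r z ∧ vis h m r z ≤ 1) ∧
    (∀ z, nv h m z ≤ r → vis h m r z = 1) ∧ (∀ z, vis h m r z ≠ 0 → nv h m z ≤ 2 * r)

/-- PLI: logarithmic integrability. -/
def T_PLI : Prop :=
  ∀ (k d m : ℕ) (F : Fin (k + 1) → MvPolynomial (Fin (k + 1)) ℂ)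
    (h : MvPolynomial (Fin (k + 1)) ℂ), 2 ≤ d → IsH d F → h.IsHomogeneous m → 1 ≤ m → h ≠ 0 →
    ∃ C : ℝ, ∀ (j : ℕ) (r : ℝ), 0 < r → r ≤ 1 →
      EE F d j (om (k + 1) k) (fun z => -(1 / 2) * Real.log (nv h m z ^ 2 + r ^ 2)) ≤ C

/-- PLL: local integrability of `log |h|`. -/
def T_PLL : Prop :=
  ∀ (N m : ℕ) (h : MvPolynomial (Fin N) ℂ), 0 < N → h.IsHomogeneous m → h ≠ 0 →
    IntegrableOn (fun z : Fin N → ℂ => Real.log (nv h m z))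
      {z : Fin N → ℂ | 0 ≤ ell z ∧ ell z < 1}

/-- PRJ: the relative Jacobian on paths without visits. -/
def T_PRJ : Prop :=
  ∀ (N d M : ℕ) (F : Fin N → MvPolynomial (Fin N) ℂ) (P : MvPolynomial (Fin N) ℂ), 0 < N →
    2 ≤ d → IsH d F → NormJ F P M → ∃ c : ℝ, 0 < c ∧ c ≤ 1 ∧
    (∀ (x : Fin N → ℂ), x ≠ 0 →
      c * nv P M (ev F x) ≤ nv (detP F) (N * (d - 1)) x) ∧
    ∀ (j : ℕ) (r : ℝ) (x : Fin N → ℂ), x ≠ 0 → 0 < r → r ≤ 1 →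
      (∀ i, 1 ≤ i → i ≤ j → r ≤ nv P M (ev (iter F i) x)) →
      (c * r) ^ j ≤ relJ (iter F j) x

/-- PBD: derivative bounds for the cutoff of the first visit. -/
def T_PBD : Prop :=
  ∀ (N d M : ℕ) (F : Fin N → MvPolynomial (Fin N) ℂ) (P : MvPolynomial (Fin N) ℂ), 0 < N →
    2 ≤ d → IsH d F → P.IsHomogeneous M → ∀ b : ℝ, 0 ≤ b → ∃ C : ℝ, 1 ≤ C ∧
    ∀ (j : ℕ) (r : ℝ), 0 < r → r ≤ 1 → ∀ κ : (Fin N → ℂ) → ℝ,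
    (κ = fun x => noV F (vis P M r) j 0 j x *
      (b - (1 / 2) * Real.log (nv P M x ^ 2 + r ^ 2))) →
    Hom0 κ ∧ (∀ x, nrm x = 1 → |κ x| ≤ C / r) ∧
    (∀ x, nrm x = 1 → ∀ a, ‖wd a (fun w => (κ w : ℂ)) x‖ ≤ C ^ (j + 1) / r ^ 3)

/-- PFV: the first visit. -/
def T_PFV : Prop :=
  ∀ (k d M : ℕ) (F : Fin (k + 1) → MvPolynomial (Fin (k + 1)) ℂ)
    (P : MvPolynomial (Fin (k + 1)) ℂ), 2 ≤ d → IsH d F → NormJ F P M →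
    LocLip (k + 1) k 0 → TGauss (k + 1) k 0 → GaussMean (k + 1) k 0 →
    ∃ C : ℝ, 0 < C ∧ ∀ (r : ℝ) (j : ℕ) (σ : Form (Fin (k + 1)) k), 0 < r → r ≤ 1 / 2 →
    1 ≤ j → ProjForm σ →
    EE F d j σ (fun x => noV F (vis P M r) j 0 j x * vis P M r x) ≤
      C * (j / (d : ℝ) ^ j + 1 / Real.log (1 / r)) * mass 0 σ

/-- PLC: local counting of preimages. -/
def T_PLC : Prop :=
  ∀ (k D : ℕ) (Φ : Fin (k + 1) → MvPolynomial (Fin (k + 1)) ℂ) (σ : Form (Fin (k + 1)) k)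
    (g : (Fin (k + 1) → ℂ) → ℝ), 1 ≤ D → IsH D Φ → ProjForm σ → Hom0 g →
    (∀ z, z ≠ 0 → 0 ≤ g z) →
    pair (Set.indicator {z | ∃ x, ev Φ x = z ∧ 1 ≤ g x} (fun _ => 1)) σ
        (fun _ : Fin 0 => ell) ≤
      D * pair g (pull Φ σ) (fun _ : Fin 0 => ell)

/-- PSA: identities for products. -/
def T_PSA : Prop :=
  ∀ (v : ℕ → ℝ) (θ : ℝ) (a b : ℕ), a ≤ b →
    (1 - ∏ i ∈ Finset.Ico a b, (1 - v i) =
      ∑ j ∈ Finset.Ico a b, (∏ i ∈ Finset.Ico a j, (1 - v i)) * v j) ∧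
    (1 - ∏ i ∈ Finset.Ico a b, (1 - v i) =
      ∑ j ∈ Finset.Ico a b, v j * ∏ i ∈ Finset.Ico (j + 1) b, (1 - v i)) ∧
    (∑ i ∈ Finset.Ico a b, θ ^ i * (v i * ∏ m ∈ Finset.Ico (i + 1) b, (1 - v m)) =
      ∑ j ∈ Finset.Ico a b, (∏ i ∈ Finset.Ico a j, (1 - v i)) * v j *
        (θ ^ j * (∏ m ∈ Finset.Ico (j + 1) b, (1 - v m)) +
          ∑ i ∈ Finset.Ico (j + 1) b, θ ^ i * (v i * ∏ m ∈ Finset.Ico (i + 1) b, (1 - v m))))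

/-- PRC: escape. -/
def T_PRC : Prop :=
  ∀ (k d M : ℕ) (F : Fin (k + 1) → MvPolynomial (Fin (k + 1)) ℂ)
    (P : MvPolynomial (Fin (k + 1)) ℂ) (CF : ℝ), 2 ≤ d → IsH d F → NormJ F P M → 0 < CF →
    (∀ (r : ℝ) (j : ℕ) (σ : Form (Fin (k + 1)) k), 0 < r → r ≤ 1 / 2 → 1 ≤ j → ProjForm σ →
      EE F d j σ (fun x => noV F (vis P M r) j 0 j x * vis P M r x) ≤
        CF * (j / (d : ℝ) ^ j + 1 / Real.log (1 / r)) * mass 0 σ) →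
    ∃ (t s A : ℕ) (h : Fin s → MvPolynomial (Fin (k + 1)) ℂ) (e : Fin s → ℕ)
      (C δ c r0 ε0 : ℝ), InvS F h e C ∧ 0 < δ ∧ δ < 1 ∧ 0 < c ∧ 0 < r0 ∧ r0 ≤ 1 / 2 ∧ 0 < ε0 ∧
    ∀ (r : ℝ) (L : ℕ) (σ : Form (Fin (k + 1)) k), 0 < r → r ≤ r0 → t ≤ L →
      L ≤ ε0 * Real.log (1 / r) → ProjForm σ → InK {z | r / c ≤ phi h e z ^ A} σ →
      δ * mass 0 σ ≤ EE F d L σ (noV F (vis P M r) L t (L + 1))

/-- PRN: renewal. -/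
def T_PRN : Prop :=
  ∀ (k d M : ℕ) (F : Fin (k + 1) → MvPolynomial (Fin (k + 1)) ℂ)
    (P : MvPolynomial (Fin (k + 1)) ℂ) (CF : ℝ) (t s A : ℕ)
    (h : Fin s → MvPolynomial (Fin (k + 1)) ℂ) (e : Fin s → ℕ) (C δ c r0 ε0 : ℝ),
    2 ≤ d → IsH d F → NormJ F P M → 0 < CF →
    (∀ (r : ℝ) (j : ℕ) (σ : Form (Fin (k + 1)) k), 0 < r → r ≤ 1 / 2 → 1 ≤ j → ProjForm σ →
      EE F d j σ (fun x => noV F (vis P M r) j 0 j x * vis P M r x) ≤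
        CF * (j / (d : ℝ) ^ j + 1 / Real.log (1 / r)) * mass 0 σ) →
    InvS F h e C → 0 < δ → δ < 1 → 0 < c → 0 < r0 → r0 ≤ 1 / 2 → 0 < ε0 →
    (∀ (r : ℝ) (L : ℕ) (σ : Form (Fin (k + 1)) k), 0 < r → r ≤ r0 → t ≤ L →
      L ≤ ε0 * Real.log (1 / r) → ProjForm σ → InK {z | r / c ≤ phi h e z ^ A} σ →
      δ * mass 0 σ ≤ EE F d L σ (noV F (vis P M r) L t (L + 1))) →
    ∀ (s0 c2 : ℝ), 0 < s0 → 0 < c2 → ∃ (θ B : ℝ) (n0 : ℕ), 1 < θ ∧ 0 < B ∧ ∀ n ≥ n0, ∀ i ≤ n,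
    ∀ σ : Form (Fin (k + 1)) k, ProjForm σ → InK {z | s0 ≤ phi h e z} σ →
      EE F d i σ (vis P M (c2 * Real.exp (-((d : ℝ) ^ n / (n : ℝ) ^ 4)))) ≤
        B / θ ^ i * mass 0 σ

/-- PZ: the block. -/
def T_PZ : Prop :=
  (∀ k, LocLip (k + 1) k 0 ∧ TGauss (k + 1) k 0 ∧ GaussMean (k + 1) k 0) → T_PM2

end

end Pool.Agent.H92.EQ
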