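import Pool.Agent.H92.EQ.TF2

/-!
Board MP_75a732_an, block T: changing `I + θ X` into `X`.
-/

namespace Pool.Agent.H92.EQ

open scoped BigOperators ComplexConjugate ContDiff ComplexOrder
open MeasureTheory

noncomputable section

section defs

variable {N p : ℕ}

/-- The last `N` coordinates. -/
def tl (z : Fin (N + 1) → ℂ) : Fin N → ℂ := fun i => z i.succ

/-- The point `(t, x)`. -/
def ct (t : ℂ) (x : Fin N → ℂ) : Fin (N + 1) → ℂ := Fin.cons (α := fun _ => ℂ) t x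

/-- `V × (C^N ∖ 0)`. -/
def WV (N : ℕ) (V : Set ℂ) : Set (Fin (N + 1) → ℂ) := {z | z 0 ∈ V ∧ tl z ≠ 0}

/-- Functions of `(t,x)`, log-homogeneous in `x`. -/
structure LHT (V : Set ℂ) (c : ℝ) (u : (Fin (N + 1) → ℂ) → ℝ) : Prop where
  smooth : ContDiffOn ℝ ∞ u (WV N V)
  hom : ∀ (l : ℂ) (z : Fin (N + 1) → ℂ), l ≠ 0 → z ∈ WV N V →
    u (ct (z 0) (l • tl z)) = u z + c * Real.log ‖l‖

/-- Positive closed forms on `V × P^(N-1)`. -/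
structure FormT (V : Set ℂ) (S : Form (Fin (N + 1)) p) : Prop where
  cf : ClosedForm (WV N V) S
  psd : ∀ z ∈ WV N V, Psd (S z)
  kilL : ∀ z ∈ WV N V, KilL (ct 0 (tl z)) (S z)
  kilR : ∀ z ∈ WV N V, KilR (ct 0 (tl z)) (S z)
  hom : ∀ (l : ℂ) (z : Fin (N + 1) → ℂ), l ≠ 0 → z ∈ WV N V → ∀ I J,
    S (ct (z 0) (l • tl z)) I J = (∏ k, if I k = 0 then 1 else l⁻¹) *
      (∏ k, if J k = 0 then 1 else (conj l)⁻¹) * S z I J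

/-- The restriction of a form to `{t} × C^N`. -/
def res (S : Form (Fin (N + 1)) p) (t : ℂ) : Form (Fin N) p :=
  fun x I J => S (ct t x) (fun l => (I l).succ) (fun l => (J l).succ)

/-- The function `log |x|` of `(t,x)`. -/
def ellT (z : Fin (N + 1) → ℂ) : ℝ := ell (tl z)

/-- The radial form in `x`. -/
def RadT (z : Fin (N + 1) → ℂ) : Matrix (Fin (N + 1)) (Fin (N + 1)) ℂ :=
  out (gd (cx ellT) z) (gdb (cx ellT) z)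

/-- `S ∧ dd^c v_1 ∧ ... ∧ dd^c v_m` on `V × P^(N-1)`. -/
def QT {m : ℕ} (S : Form (Fin (N + 1)) p) (v : Fin m → (Fin (N + 1) → ℂ) → ℝ)
    (z : Fin (N + 1) → ℂ) : ℝ :=
  (mixD (S z) (Fin.snoc (α := fun _ => Matrix (Fin (N + 1)) (Fin (N + 1)) ℂ)
    (fun j => hessR (v j) z) (RadT z))).re

/-- Its density over `V`. -/
def mT {m : ℕ} (S : Form (Fin (N + 1)) p) (v : Fin m → (Fin (N + 1) → ℂ) → ℝ) (t : ℂ) : ℝ :=
  Iint (fun x => QT S v (ct t x))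

/-- A quarter of the Laplacian. -/
def lapl (f : ℂ → ℝ) (t : ℂ) : ℝ :=
  (1 / 4) * (fderiv ℝ (fun s => fderiv ℝ f s 1) t 1 +
    fderiv ℝ (fun s => fderiv ℝ f s Complex.I) t Complex.I)

/-- The Gaussian density of variance `s`. -/
def gs (s : ℝ) (t : ℂ) : ℝ := (Real.pi * s)⁻¹ * Real.exp (-‖t‖ ^ 2 / s)

/-- Test functions on `V`. -/
structure Tst (V : Set ℂ) (f : ℂ → ℝ) : Prop where
  smooth : ContDiff ℝ ∞ f
  cpt : HasCompactSupport f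
  sub : tsupport f ⊆ V

/-- The weak equation `lapl F = m` on `V`. -/
def Weak (V : Set ℂ) (F m : ℂ → ℝ) : Prop :=
  ∀ f : ℂ → ℝ, Tst V f → ∫ t, lapl f t * F t = ∫ t, f t * m t

/-- Replacing the entry `(i,j)` by `t`. -/
def rep (X : Fin N → Fin N → ℂ) (i j : Fin N) (t : ℂ) : Fin N → Fin N → ℂ :=
  Function.update X i (Function.update (X i) j t)

end defs

/-- TA: restrictions. -/
def T_TA : Prop :=
  ∀ (N p : ℕ) (V : Set ℂ) (t : ℂ), IsOpen V → t ∈ V →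
    (∀ S : Form (Fin (N + 1)) p, FormT V S → ProjForm (res S t)) ∧
    (∀ (c : ℝ) (u : (Fin (N + 1) → ℂ) → ℝ), LHT V c u → LH c (fun x => u (ct t x)) ∧
      ∀ x : Fin N → ℂ, x ≠ 0 → hessR (fun y => u (ct t y)) x =
        (hessR u (ct t x)).submatrix Fin.succ Fin.succ)

/-- TB: pull-backs. -/
def T_TB : Prop :=
  ∀ (N p D : ℕ) (V : Set ℂ) (G : Fin N → MvPolynomial (Fin (N + 1)) ℂ) (S : Form (Fin N) p),
    IsOpen V → 1 ≤ D → (∀ (l : ℂ) (z : Fin (N + 1) → ℂ),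
      ev G (ct (z 0) (l • tl z)) = l ^ D • ev G z) →
    (∀ z ∈ WV N V, ev G z ≠ 0) → ProjForm S →
    FormT V (pull G S) ∧ LHT V 1 (fun z => (1 / (D : ℝ)) * ell (ev G z)) ∧
    (∀ z ∈ WV N V, (hessR (fun z => (1 / (D : ℝ)) * ell (ev G z)) z).PosSemidef)

/-- TC: Euler identities and homogeneity for functions of `(t,x)`. -/
def T_TC : Prop :=
  ∀ (N p m : ℕ) (V : Set ℂ) (S : Form (Fin (N + 1)) p) (v : Fin m → (Fin (N + 1) → ℂ) → ℝ)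
    (c : Fin m → ℝ), IsOpen V → FormT V S → (∀ j, LHT V (c j) (v j)) →
    (∀ z ∈ WV N V, ∀ j, ∑ a, ct 0 (tl z) a * wd a (cx (v j)) z = c j / 2 ∧
      ∑ a, conj (ct 0 (tl z) a) * wdb a (cx (v j)) z = c j / 2 ∧
      MKilL (ct 0 (tl z)) (hessR (v j) z) ∧ MKilR (ct 0 (tl z)) (hessR (v j) z)) ∧
    (∀ z ∈ WV N V, ∀ l : ℂ, l ≠ 0 → QT S v (ct (z 0) (l • tl z)) =
      (‖l‖ ^ (2 * N))⁻¹ * QT S v z) ∧
    (∀ z ∈ WV N V, (QT S v z : ℂ) =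
      mixD (S z) (Fin.snoc (α := fun _ => Matrix (Fin (N + 1)) (Fin (N + 1)) ℂ)
        (fun j => hessR (v j) z) (RadT z))) ∧
    ContinuousOn (fun z => QT S v z) (WV N V) ∧ ContinuousOn (mT S v) V

/-- TC2: continuity of the pairing of the restrictions. -/
def T_TC2 : Prop :=
  ∀ (N p q : ℕ) (V : Set ℂ) (S : Form (Fin (N + 1)) p) (v0 : (Fin (N + 1) → ℂ) → ℝ)
    (v : Fin q → (Fin (N + 1) → ℂ) → ℝ) (c0 : ℝ) (c : Fin q → ℝ), IsOpen V → FormT V S →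
    LHT V c0 v0 → (∀ j, LHT V (c j) (v j)) →
    ContinuousOn (fun t => pair (fun x => v0 (ct t x)) (res S t)
      (fun j x => v j (ct t x))) V

/-- TD: the Laplacian of the pairing. -/
def T_TD : Prop :=
  ∀ (N p q : ℕ) (V : Set ℂ) (S : Form (Fin (N + 1)) p) (v0 : (Fin (N + 1) → ℂ) → ℝ)
    (v : Fin q → (Fin (N + 1) → ℂ) → ℝ) (c : Fin q → ℝ), p + q + 1 = N → IsOpen V →
    FormT V S → LHT V 0 v0 → (∀ j, LHT V (c j) (v j)) →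
    Weak V (fun t => pair (fun x => v0 (ct t x)) (res S t) (fun j x => v j (ct t x)))
      (mT S (Fin.cons (α := fun _ => (Fin (N + 1) → ℂ) → ℝ) v0 v))

/-- TE: vanishing. -/
def T_TE : Prop :=
  ∀ (N p q D : ℕ) (V : Set ℂ) (G : Fin N → MvPolynomial (Fin (N + 1)) ℂ) (S : Form (Fin N) p),
    p + q + 1 = N → IsOpen V → 1 ≤ D → (∀ (l : ℂ) (z : Fin (N + 1) → ℂ),
      ev G (ct (z 0) (l • tl z)) = l ^ D • ev G z) →
    (∀ z ∈ WV N V, ev G z ≠ 0) → ProjForm S → ∀ z ∈ WV N V,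
    QT (pull G S) (fun _ : Fin (q + 1) => fun z => (1 / (D : ℝ)) * ell (ev G z)) z = 0

/-- TF: the mass of a one parameter family, telescoping. -/
def T_TF : Prop :=
  ∀ (N p q D : ℕ) (V : Set ℂ) (G : Fin N → MvPolynomial (Fin (N + 1)) ℂ) (S : Form (Fin N) p)
    (u : Fin (q + 1) → (Fin N → ℂ) → ℝ) (K : ℂ → ℝ),
    p + q + 1 = N → IsOpen V → 1 ≤ D → (∀ (l : ℂ) (z : Fin (N + 1) → ℂ),
      ev G (ct (z 0) (l • tl z)) = l ^ D • ev G z) →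
    (∀ z ∈ WV N V, ev G z ≠ 0) → ProjForm S → (∀ j, Pot (u j)) →
    (∀ t ∈ V, ∀ x : Fin N → ℂ, x ≠ 0 → ∀ j,
      |u j x - (1 / (D : ℝ)) * ell (ev G (ct t x))| ≤ K t) →
    (∀ t ∈ V, 0 ≤ mT (pull G S) (fun j z => u j (tl z)) t) ∧
    ContinuousOn (mT (pull G S) (fun j z => u j (tl z))) V ∧
    ∃ F : ℂ → ℝ, ContinuousOn F V ∧
      (∀ t ∈ V, |F t| ≤ (q + 1) * K t * mass q (res (pull G S) t)) ∧
      Weak V F (mT (pull G S) (fun j z => u j (tl z)))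

/-- TG: one entry of a matrix moves. -/
def T_TG : Prop :=
  ∀ (N : ℕ) (X : Fin N → Fin N → ℂ) (i j : Fin N),
    (Matrix.of (rep X i j 1)).det - (Matrix.of (rep X i j 0)).det ≠ 0 →
    ∃ (t1 : ℂ) (C : ℝ), (∀ t, (Matrix.of (rep X i j t)).det = 0 ↔ t = t1) ∧
      ∀ t, t ≠ t1 → ∀ y : Fin N → ℂ, y ≠ 0 →
        |ell ((Matrix.of (rep X i j t)).mulVec y) - ell y| ≤ N * |Real.log ‖t - t1‖| + C

/-- TH: generic matrices. -/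
def T_TH : Prop :=
  ∀ (N : ℕ) (i j : Fin N),
    (∀ᵐ X : Fin N → Fin N → ℂ, (Matrix.of X).det ≠ 0) ∧
    (∀ᵐ X : Fin N → Fin N → ℂ,
      (Matrix.of (rep X i j 1)).det - (Matrix.of (rep X i j 0)).det ≠ 0)

/-- TI: the Laplacian of `a(t)`. -/
def T_TI : Prop :=
  ∀ (N p q D : ℕ) (Φ : Fin N → MvPolynomial (Fin N) ℂ) (S : Form (Fin N) p)
    (w w' : (Fin N → ℂ) → ℝ) (u : Fin q → (Fin N → ℂ) → ℝ) (X : Fin N → Fin N → ℂ)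
    (i j : Fin N) (t1 : ℂ), p + q + 1 = N → 1 ≤ D → IsH D Φ → ProjForm S → Pot w → Pot w' →
    (∀ j, Pot (u j)) → (Matrix.of (rep X i j 1)).det - (Matrix.of (rep X i j 0)).det ≠ 0 →
    (∀ t, (Matrix.of (rep X i j t)).det = 0 ↔ t = t1) →
    ∃ m m' F F' : ℂ → ℝ, ∃ C : ℝ,
      (∀ t, t ≠ t1 → 0 ≤ m t ∧ 0 ≤ m' t) ∧ ContinuousOn m {t1}ᶜ ∧ ContinuousOn m' {t1}ᶜ ∧
      ContinuousOn F {t1}ᶜ ∧ ContinuousOn F' {t1}ᶜ ∧
      (∀ t, t ≠ t1 → |F t| ≤ (q + 1) * N * ((D : ℝ) ^ p / D) * mass q S *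
        |Real.log ‖t - t1‖| + C) ∧
      (∀ t, t ≠ t1 → |F' t| ≤ (q + 1) * N * ((D : ℝ) ^ p / D) * mass q S *
        |Real.log ‖t - t1‖| + C) ∧
      Weak {t1}ᶜ F m ∧ Weak {t1}ᶜ F' m' ∧
      ContinuousOn (fun t => am (fun z => w z - w' z) Φ S u (Matrix.of (rep X i j t))) {t1}ᶜ ∧
      Weak {t1}ᶜ (fun t => am (fun z => w z - w' z) Φ S u (Matrix.of (rep X i j t)))
        (fun t => m t - m' t)

/-- TJ: logarithmic growth bounds the total mass. -/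
def T_TJ : Prop :=
  ∃ c0 : ℝ, 0 < c0 ∧ ∀ (t1 : ℂ) (F m : ℂ → ℝ) (A B : ℝ), 0 ≤ A → 0 ≤ B →
    ContinuousOn F {t1}ᶜ → ContinuousOn m {t1}ᶜ → (∀ t, t ≠ t1 → 0 ≤ m t) →
    (∀ t, t ≠ t1 → |F t| ≤ A * |Real.log ‖t - t1‖| + B) → Weak {t1}ᶜ F m →
    Integrable m ∧ ∫ t, m t ≤ c0 * A

/-- TK: testing against bounded functions. -/
def T_TK : Prop :=
  ∀ (t1 : ℂ) (a m m' ψ : ℂ → ℝ) (B M K K' : ℝ), ContinuousOn a {t1}ᶜ →
    (∀ t, t ≠ t1 → |a t| ≤ B) → (∀ t, t ≠ t1 → 0 ≤ m t ∧ 0 ≤ m' t) →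
    ContinuousOn m {t1}ᶜ → ContinuousOn m' {t1}ᶜ → Integrable m → Integrable m' →
    ∫ t, m t ≤ M → ∫ t, m' t ≤ M → Weak {t1}ᶜ a (fun t => m t - m' t) →
    ContDiff ℝ ∞ ψ → (∀ t, |ψ t| ≤ K) → (∀ t, ‖fderiv ℝ ψ t‖ ≤ K') →
    Integrable (fun t => ‖fderiv ℝ ψ t‖) → Integrable (fun t => lapl ψ t) →
    |∫ t, lapl ψ t * a t| ≤ 2 * K * M

/-- TL: the heat flow. -/
def T_TL : Prop :=
  ∃ C : ℝ, 0 < C ∧ ∀ (t1 c : ℂ) (a : ℂ → ℝ) (B M θ : ℝ), ContinuousOn a {t1}ᶜ →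
    (∀ t, t ≠ t1 → |a t| ≤ B) → 0 ≤ M → ‖c‖ ≤ 1 → 0 < θ → θ ≤ 1 →
    (∀ (ψ : ℂ → ℝ) (K K' : ℝ), ContDiff ℝ ∞ ψ → (∀ t, |ψ t| ≤ K) →
      (∀ t, ‖fderiv ℝ ψ t‖ ≤ K') → Integrable (fun t => ‖fderiv ℝ ψ t‖) →
      Integrable (fun t => lapl ψ t) → |∫ t, lapl ψ t * a t| ≤ 2 * K * M) →
    |∫ t, a t * (gs (θ ^ 2) (t - c) - gs 1 t)| ≤ C * (1 + Real.log (1 / θ)) * M

/-- TM: changing the factors of a product density one after the other. -/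
def T_TM : Prop :=
  ∀ (N : ℕ) (b : (Fin N → Fin N → ℂ) → ℝ) (P P' : Fin N → Fin N → ℂ → ℝ) (B K : ℝ), 0 ≤ K →
    AEStronglyMeasurable b → (∀ᵐ X, |b X| ≤ B) →
    (∀ i j, Continuous (P i j) ∧ Continuous (P' i j) ∧ (∀ t, 0 ≤ P i j t) ∧
      (∀ t, 0 ≤ P' i j t) ∧ Integrable (P i j) ∧ Integrable (P' i j) ∧
      ∫ t, P i j t = 1 ∧ ∫ t, P' i j t = 1) →
    (∀ i j, ∀ᵐ X, |∫ t, b (rep X i j t) * (P i j t - P' i j t)| ≤ K) →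
    Integrable (fun X => b X * ∏ i, ∏ j, P i j (X i j)) ∧
    Integrable (fun X => b X * ∏ i, ∏ j, P' i j (X i j)) ∧
    |(∫ X, b X * ∏ i, ∏ j, P i j (X i j)) - ∫ X, b X * ∏ i, ∏ j, P' i j (X i j)| ≤
      N ^ 2 * K

/-- TN: continuity of `a(A)` on invertible matrices, bound. -/
def T_TN : Prop :=
  ∀ (N p q D : ℕ) (Φ : Fin N → MvPolynomial (Fin N) ℂ) (S : Form (Fin N) p)
    (φ : (Fin N → ℂ) → ℝ) (u : Fin q → (Fin N → ℂ) → ℝ) (B : ℝ), p + q + 1 = N → 1 ≤ D →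
    IsH D Φ → ProjForm S → Hom0 φ → (∀ j, Pot (u j)) → (∀ z, z ≠ 0 → |φ z| ≤ B) →
    ContinuousOn (fun X : Fin N → Fin N → ℂ => am φ Φ S u (Matrix.of X))
      {X | (Matrix.of X).det ≠ 0} ∧
    (∀ A : Matrix (Fin N) (Fin N) ℂ, A.det ≠ 0 →
      |am φ Φ S u A| ≤ B * ((D : ℝ) ^ p * mass q S)) ∧
    (∀ A : Matrix (Fin N) (Fin N) ℂ, A.det ≠ 0 →
      ProjForm (pull (cmp (lin A) Φ) S) ∧
      mass q (pull (cmp (lin A) Φ) S) = (D : ℝ) ^ p * mass q S)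

/-- TZ: the block. -/
def T_TZ : Prop := ∀ N p q, TGauss N p q

end

end Pool.Agent.H92.EQ
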